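import Pool.Agent.Ram2.Law

/-!
# The base case: edgeless graphs
-/

set_option autoImplicit false

namespace Pool.Agent.Ram2

open Finset Ram1

theorem Q_zero (K : ℝ) (hK : 0 < K) : Q 0 K := by
  refine ⟨max 1 K, max K (K ^ 2), le_max_left _ _, hK.le.trans (le_max_left _ _), ?_⟩
  intro d hd P hP X hX _
  have hd1 : 1 ≤ d := (le_max_left _ _).trans hd
  have hdK : K ≤ d := (le_max_right _ _).trans hd
  have hd0 : 0 < d := lt_of_lt_of_le one_pos hd1
  set n : ℕ := X.sup id + 1 with hn
  have hXn : X ⊆ range n := by
    intro x hx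
    have : id x ≤ X.sup id := Finset.le_sup hx
    simp only [id] at this
    exact mem_range.mpr (by omega)
  have hθ0 : 0 ≤ K / d := by positivity
  have hθ1 : K / d ≤ 1 := by rw [div_le_one hd0]; exact hdK
  have hfn := Ex_fn (fun _ _ => K / d) (fun _ _ => hθ0) (fun _ _ => hθ1) n
  refine ⟨fun f => Ex (fun _ _ => K / d) n (fun I => f (I ∩ X)), ?_, ?_, ?_, ?_⟩
  · apply hfn.map (fun I => I ∩ X)
    intro I _
    refine ⟨inter_subset_right, ?_⟩
    intro v hv u hu hu'
    exact hX v (mem_inter.mp hv).2 u hu (mem_inter.mp hu').2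
  · intro v hv
    have h1 := Ex_ind (fun _ => K / d) n v (mem_range.mp (hXn hv)) 1
    rw [mul_one] at h1
    show _ ≤ Ex (fun _ _ => K / d) n (fun I => ind v (I ∩ X))
    refine le_of_eq (h1.symm.trans ?_)
    congr 1
    funext I
    simp [ind, hv]
  · intro v
    by_cases hv : v ∈ X
    · have h1 := Ex_ind (fun _ => K / d) n v (mem_range.mp (hXn hv)) 1
      rw [mul_one] at h1
      have h2 : Ex (fun _ _ => K / d) n (fun I => ind v (I ∩ X)) = K / d := by
        refine Eq.trans ?_ h1
        congr 1
        funext I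
        simp [ind, hv]
      show Ex (fun _ _ => K / d) n (fun I => ind v (I ∩ X)) ≤ _
      rw [h2]
      exact div_le_div_of_nonneg_right (le_max_left _ _) hd0.le
    · have h2 : Ex (fun _ _ => K / d) n (fun I => ind v (I ∩ X)) = 0 := by
        rw [← Ex_const (fun _ _ => K / d) n 0]
        congr 1
        funext I
        simp [ind, hv]
      show Ex (fun _ _ => K / d) n (fun I => ind v (I ∩ X)) ≤ _
      rw [h2]
      positivity
  · intro u v huv
    show Ex (fun _ _ => K / d) n (fun I => ind u (I ∩ X) * ind v (I ∩ X)) ≤ _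
    by_cases huv' : u ∈ X ∧ v ∈ X
    · have h1 := Ex_ind2' (fun _ => K / d) n u v huv (mem_range.mp (hXn huv'.1))
        (mem_range.mp (hXn huv'.2))
      have h2 : Ex (fun _ _ => K / d) n (fun I => ind u (I ∩ X) * ind v (I ∩ X)) =
          K / d * (K / d) := by
        rw [← h1]
        congr 1
        funext I
        simp only [ind, mem_inter, huv'.1, huv'.2, and_true]
        by_cases h3 : u ∈ I <;> by_cases h4 : v ∈ I <;> simp [h3, h4]
      rw [h2]
      have h3 : K / d * (K / d) = K ^ 2 / d ^ 2 := by
        rw [div_mul_div_comm]; ring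
      rw [h3]
      exact div_le_div_of_nonneg_right (le_max_right _ _) (by positivity)
    · have h2 : Ex (fun _ _ => K / d) n (fun I => ind u (I ∩ X) * ind v (I ∩ X)) = 0 := by
        rw [← Ex_const (fun _ _ => K / d) n 0]
        congr 1
        funext I
        rcases not_and_or.mp huv' with h | h
        · simp [ind, h]
        · simp [ind, h]
      rw [h2]
      positivity

end Pool.Agent.Ram2
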