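import Pool.Agent.Ram1.Mean

/-!
# Random independent sets in degenerate graphs with bounded clique number: definitions

Vertices are natural numbers, `P v ⊆ range v` is the set of earlier neighbours of `v`.
-/

set_option autoImplicit false

namespace Pool.Agent.Ram2

open Finset

/-- `E` is a positive linear functional of mass `m` on functions of finite sets of naturals,
supported on the sets with the property `A` (for `m = 1`: the expectation of a random set with the
property `A`). -/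
structure Fn (A : Finset ℕ → Prop) (m : ℝ) (E : (Finset ℕ → ℝ) → ℝ) : Prop where
  add : ∀ f g : Finset ℕ → ℝ, E (fun I => f I + g I) = E f + E g
  smul : ∀ (c : ℝ) (f : Finset ℕ → ℝ), E (fun I => c * f I) = c * E f
  mono : ∀ f g : Finset ℕ → ℝ, (∀ I, A I → f I ≤ g I) → E f ≤ E g
  one : E (fun _ => 1) = m

/-- The indicator of `v ∈ I`. -/
noncomputable def ind (v : ℕ) (I : Finset ℕ) : ℝ := if v ∈ I then 1 else 0

/-- `I` is an independent subset of `X`. -/
def Indep (P : ℕ → Finset ℕ) (X I : Finset ℕ) : Prop := I ⊆ X ∧ ∀ v ∈ I, ∀ u ∈ P v, u ∉ I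

/-- `KF P s X`: the graph on `X` has no clique with `s + 2` vertices. -/
def KF (P : ℕ → Finset ℕ) : ℕ → Finset ℕ → Prop
  | 0, X => ∀ v ∈ X, ∀ u ∈ P v, u ∉ X
  | s + 1, X => ∀ r ∈ X, KF P s (X.filter (fun u => r ∈ P u))

/-- Random independent sets of density `K / d` with bounded pair correlations in all graphs without
`K_{s+2}` whose vertices have at most `d` earlier neighbours. -/
def Q (s : ℕ) (K : ℝ) : Prop :=
  ∃ d₀ C : ℝ, 1 ≤ d₀ ∧ 0 ≤ C ∧ ∀ d : ℝ, d₀ ≤ d → ∀ P : ℕ → Finset ℕ, (∀ v, P v ⊆ range v) →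
    ∀ X : Finset ℕ, KF P s X → (∀ v ∈ X, ((P v ∩ X).card : ℝ) ≤ d) →
      ∃ E : (Finset ℕ → ℝ) → ℝ, Fn (Indep P X) 1 E ∧ (∀ v ∈ X, K / d ≤ E (ind v)) ∧
        (∀ v, E (ind v) ≤ C / d) ∧
        ∀ u v, u ≠ v → E (fun I => ind u I * ind v I) ≤ C / d ^ 2

/-- The label of a vertex with set of earlier neighbours `A`: the least seed in `A`, if any. -/
noncomputable def lab (n : ℕ) (R A : Finset ℕ) (u : ℕ) : ℕ :=
  if h : (A ∩ R).Nonempty then (A ∩ R).min' h else n + u

/-- Probability that `u` and `y` have the same label (`R` = random set of seeds of density `ρ`). -/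
noncomputable def sig (n : ℕ) (ρ : ℝ) (P : ℕ → Finset ℕ) (X : Finset ℕ) (u y : ℕ) : ℝ :=
  Ram1.Ex (fun _ _ => ρ) n
    (fun R => if lab n R (P u ∩ X) u = lab n R (P y ∩ X) y then 1 else 0)

/-- The product of the functionals `L 0, …, L (N-1)` (unions of independent random sets). -/
noncomputable def Pd (L : ℕ → (Finset ℕ → ℝ) → ℝ) : ℕ → (Finset ℕ → ℝ) → ℝ
  | 0, f => f ∅
  | N + 1, f => Pd L N (fun J => L N (fun I => f (J ∪ I)))

end Pool.Agent.Ram2
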