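import Pool.Agent.Ram1.Iter
import Pool.Agent.Ram2.Defs

/-!
# Colouring degenerate graphs of bounded clique number with few colours (MP_4e6f39_co)

From the random independent sets `Q s K` (for every density constant `K`) to a colouring with
fewer than `k` colours of every graph without `K_{s+2}` on at most `exp (c k)` vertices with back
degrees at most `lam * k`.
-/

set_option autoImplicit false

namespace Pool.Agent.Ram2

open Finset

section Law

variable {A : Finset ℕ → Prop} {m₀ : ℝ} {E : (Finset ℕ → ℝ) → ℝ}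

lemma ck_const (h : Fn A m₀ E) (c : ℝ) : E (fun _ => c) = c * m₀ := by
  have := h.smul c (fun _ => 1)
  rw [h.one] at this
  simpa using this

lemma ck_sum {ι : Type} (h : Fn A m₀ E) (s : Finset ι) (f : ι → Finset ℕ → ℝ) :
    E (fun I => ∑ i ∈ s, f i I) = ∑ i ∈ s, E (f i) := by
  classical
  induction s using Finset.induction_on with
  | empty => simpa using ck_const h 0
  | insert a s ha ih =>
    rw [sum_insert ha, ← ih, ← h.add]
    congr 1
    funext I
    rw [sum_insert ha]

lemma ck_card (T I : Finset ℕ) : ((T ∩ I).card : ℝ) = ∑ v ∈ T, ind v I := by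
  simp only [ind]
  rw [← Finset.sum_filter, Finset.sum_const, Finset.filter_mem_eq_inter]
  simp

lemma ck_first (h : Fn A m₀ E) {a : ℝ} (T : Finset ℕ) (hlow : ∀ v ∈ T, a ≤ E (ind v)) :
    T.card * a ≤ E (fun I => ((T ∩ I).card : ℝ)) := by
  have h1 : (fun I : Finset ℕ => ((T ∩ I).card : ℝ)) = fun I => ∑ v ∈ T, ind v I := by
    funext I
    exact ck_card T I
  rw [h1, ck_sum h T (fun v I => ind v I)]
  calc T.card * a = ∑ _v ∈ T, a := by rw [Finset.sum_const, nsmul_eq_mul]
    _ ≤ _ := Finset.sum_le_sum (fun v hv => hlow v hv)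

lemma ck_second (h : Fn A m₀ E) {a b : ℝ} (hb : 0 ≤ b) (T : Finset ℕ) (hup : ∀ v, E (ind v) ≤ a)
    (hpair : ∀ u v, u ≠ v → E (fun I => ind u I * ind v I) ≤ b) :
    E (fun I => ((T ∩ I).card : ℝ) ^ 2) ≤ T.card * (a + T.card * b) := by
  have h1 : (fun I : Finset ℕ => ((T ∩ I).card : ℝ) ^ 2) =
      fun I => ∑ u ∈ T, ∑ v ∈ T, ind u I * ind v I := by
    funext I
    rw [ck_card, sq, Finset.sum_mul_sum]
  rw [h1, ck_sum h T (fun u I => ∑ v ∈ T, ind u I * ind v I)]
  calc ∑ u ∈ T, E (fun I => ∑ v ∈ T, ind u I * ind v I)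
      ≤ ∑ _u ∈ T, (a + T.card * b) := by
        refine Finset.sum_le_sum (fun u hu => ?_)
        rw [ck_sum h T (fun v I => ind u I * ind v I), ← Finset.add_sum_erase _ _ hu]
        apply add_le_add
        · have h2 : (fun I : Finset ℕ => ind u I * ind u I) = ind u := by
            funext I
            simp only [ind]
            split_ifs <;> simp
          rw [h2]
          exact hup u
        · calc (∑ v ∈ T.erase u, E (fun I => ind u I * ind v I))
              ≤ ∑ _v ∈ T.erase u, b := Finset.sum_le_sum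
                (fun v hv => hpair u v (Finset.ne_of_mem_erase hv).symm)
            _ = (T.erase u).card * b := by rw [Finset.sum_const, nsmul_eq_mul]
            _ ≤ T.card * b := by
                apply mul_le_mul_of_nonneg_right _ hb
                exact_mod_cast Finset.card_le_card (Finset.erase_subset _ _)
    _ = T.card * (a + T.card * b) := by rw [Finset.sum_const, nsmul_eq_mul]

/-- One round, one vertex. -/
lemma ck_step (h : Fn A 1 E) {d K C r m sg : ℝ} (hd : 0 < d) (hC : 0 < C) (hK : 0 < K)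
    (hr : 0 < r) (hm : m = r * K / d) (hsg : sg = 2 * C) (T : Finset ℕ)
    (hlow : ∀ v ∈ T, K / d ≤ E (ind v)) (hup : ∀ v, E (ind v) ≤ C / d)
    (hpair : ∀ u v, u ≠ v → E (fun I => ind u I * ind v I) ≤ C / d ^ 2)
    (h1 : r ≤ T.card) (h2 : (T.card : ℝ) ≤ d) :
    E (fun I => Real.exp (-(m / sg * (T ∩ I).card))) ≤ 1 - m ^ 2 / (2 * sg) := by
  have hsg0 : 0 < sg := by rw [hsg]; positivity
  have hm0 : 0 < m := by rw [hm]; positivity
  have hs0 : 0 ≤ m / sg := (div_pos hm0 hsg0).le
  set s := m / sg with hs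
  have hle : E (fun I => Real.exp (-(s * (T ∩ I).card))) ≤
      E (fun I => 1 + ((-s) * ((T ∩ I).card : ℝ) + s ^ 2 / 2 * ((T ∩ I).card : ℝ) ^ 2)) := by
    apply h.mono
    intro I _
    have := Ram1.exp_neg_le_quad (mul_nonneg hs0 (Nat.cast_nonneg (α := ℝ) (T ∩ I).card))
    refine this.trans (le_of_eq ?_)
    ring
  rw [h.add (fun _ => 1) (fun I => (-s) * ((T ∩ I).card : ℝ) +
    s ^ 2 / 2 * ((T ∩ I).card : ℝ) ^ 2), h.one, h.add (fun I => (-s) * ((T ∩ I).card : ℝ))
    (fun I => s ^ 2 / 2 * ((T ∩ I).card : ℝ) ^ 2), h.smul, h.smul] at hle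
  have hf := ck_first h T hlow
  have hmf : m ≤ E (fun I => ((T ∩ I).card : ℝ)) := by
    refine le_trans ?_ hf
    rw [hm, mul_div_assoc]
    exact mul_le_mul_of_nonneg_right h1 (div_pos hK hd).le
  have hsec := ck_second h (show 0 ≤ C / d ^ 2 by positivity) T hup hpair
  have hsecm : E (fun I => ((T ∩ I).card : ℝ) ^ 2) ≤ sg := by
    refine hsec.trans ?_
    have hT0 : (0 : ℝ) ≤ T.card := Nat.cast_nonneg _
    calc (T.card : ℝ) * (C / d + T.card * (C / d ^ 2))
        ≤ d * (C / d + d * (C / d ^ 2)) := by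
          apply mul_le_mul h2 _ (by positivity) hd.le
          have := mul_le_mul_of_nonneg_right h2 (show 0 ≤ C / d ^ 2 by positivity)
          linarith
      _ = sg := by rw [hsg]; field_simp; norm_num
  have e1 := mul_le_mul_of_nonneg_left hmf hs0
  have e2 := mul_le_mul_of_nonneg_left hsecm (show 0 ≤ s ^ 2 / 2 by positivity)
  have e3 : s * m = m ^ 2 / sg := by rw [hs]; ring
  have e4 : s ^ 2 / 2 * sg = m ^ 2 / (2 * sg) := by
    rw [hs]; field_simp
  have e5 : m ^ 2 / sg = 2 * (m ^ 2 / (2 * sg)) := by field_simp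
  linarith

/-- Some outcome is at most the expectation. -/
lemma ck_exists {P : ℕ → Finset ℕ} {X : Finset ℕ} (h : Fn (Indep P X) 1 E)
    (f : Finset ℕ → ℝ) : ∃ I, Indep P X I ∧ f I ≤ E f := by
  classical
  by_contra hcon
  push Not at hcon
  set S : Finset (Finset ℕ) := X.powerset.filter (fun I => Indep P X I) with hS
  have hmem : ∀ I, Indep P X I → I ∈ S := fun I hI =>
    Finset.mem_filter.mpr ⟨Finset.mem_powerset.mpr hI.1, hI⟩
  have hne : S.Nonempty := by
    by_contra hno
    rw [Finset.not_nonempty_iff_eq_empty] at hno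
    have := h.mono (fun _ => 1) (fun _ => 0) (fun I hI => by
      have := hmem I hI
      rw [hno] at this
      exact absurd this (Finset.notMem_empty _))
    rw [h.one, ck_const h 0] at this
    linarith
  obtain ⟨I0, hI0, hmin⟩ := Finset.exists_min_image S f hne
  have hI0' : Indep P X I0 := (Finset.mem_filter.mp hI0).2
  have h1 := h.mono (fun _ => f I0) f (fun I hI => hmin I (hmem I hI))
  rw [ck_const h, mul_one] at h1
  exact absurd h1 (not_le.mpr (hcon I0 hI0'))

end Law

section Rounds

variable {P : ℕ → Finset ℕ} {E : (Finset ℕ → ℝ) → ℝ}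

/-- One round: a good independent set exists. -/
lemma ck_round (hPs : ∀ v, P v ⊆ range v) (n : ℕ) (h : Fn (Indep P (range n)) 1 E)
    {d K C r m sg : ℝ} (hd : 0 < d) (hC : 0 < C) (hK : 0 < K) (hr : 0 < r)
    (hm : m = r * K / d) (hsg : sg = 2 * C)
    (hlow : ∀ v ∈ range n, K / d ≤ E (ind v)) (hup : ∀ v, E (ind v) ≤ C / d)
    (hpair : ∀ u v, u ≠ v → E (fun I => ind u I * ind v I) ≤ C / d ^ 2)
    (hP : ∀ v, v < n → ((P v).card : ℝ) ≤ d) (U : Finset ℕ) :
    ∃ I, Indep P (range n) I ∧ Ram1.pot P n r (m / sg) (U \ I) ≤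
      (1 - m ^ 2 / (2 * sg)) * Ram1.pot P n r (m / sg) U := by
  have hsg0 : 0 < sg := by rw [hsg]; positivity
  have hm0 : 0 < m := by rw [hm]; positivity
  have hs0 : 0 ≤ m / sg := (div_pos hm0 hsg0).le
  obtain ⟨I, hI, hle⟩ := ck_exists h (fun I => Ram1.pot P n r (m / sg) (U \ I))
  refine ⟨I, hI, hle.trans ?_⟩
  unfold Ram1.pot
  rw [ck_sum h (range n) (fun v I => if r ≤ ((P v ∩ (U \ I)).card : ℝ) then
    Real.exp (m / sg * ((P v ∩ (U \ I)).card : ℝ)) else 0), Finset.mul_sum]
  refine Finset.sum_le_sum (fun v hv => ?_)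
  have hvn := Finset.mem_range.mp hv
  have hsd : ∀ J : Finset ℕ, P v ∩ (U \ J) = (P v ∩ U) \ J := by
    intro J; ext x; simp [and_assoc]
  simp_rw [hsd]
  set T := P v ∩ U with hT
  by_cases hh : r ≤ (T.card : ℝ)
  · rw [if_pos hh]
    have hTd : (T.card : ℝ) ≤ d := by
      refine le_trans ?_ (hP v hvn)
      exact_mod_cast Finset.card_le_card Finset.inter_subset_left
    have hTn : T ⊆ range n := by
      intro x hx
      have h1 := Finset.mem_range.mp (hPs v (Finset.mem_inter.mp hx).1)
      exact Finset.mem_range.mpr (h1.trans hvn)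
    have hstep := ck_step h hd hC hK hr hm hsg T (fun v hv => hlow v (hTn hv)) hup hpair hh hTd
    have hbd : E (fun J => if r ≤ (((T \ J).card : ℕ) : ℝ) then
        Real.exp (m / sg * ((T \ J).card : ℝ)) else 0) ≤
        E (fun J => Real.exp (m / sg * T.card) *
          Real.exp (-(m / sg * (T ∩ J).card))) := by
      apply h.mono
      intro J _
      have h2 : ((T \ J).card : ℝ) = T.card - (T ∩ J).card := by
        have := Finset.card_sdiff_add_card_inter T J
        rw [← this]; push_cast; ring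
      have h3 : Real.exp (m / sg * ((T \ J).card : ℝ)) =
          Real.exp (m / sg * T.card) * Real.exp (-(m / sg * (T ∩ J).card)) := by
        rw [← Real.exp_add, h2]; congr 1; ring
      rw [← h3]
      split_ifs
      · exact le_rfl
      · exact (Real.exp_pos _).le
    rw [h.smul] at hbd
    refine hbd.trans ?_
    rw [mul_comm]
    exact mul_le_mul_of_nonneg_right hstep (Real.exp_pos _).le
  · rw [if_neg hh, mul_zero]
    apply le_of_eq
    have h0 : (fun J : Finset ℕ => if r ≤ (((T \ J).card : ℕ) : ℝ) then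
        Real.exp (m / sg * ((T \ J).card : ℝ)) else 0) = fun _ => 0 := by
      funext J
      rw [if_neg]
      intro h'
      apply hh
      refine h'.trans ?_
      exact_mod_cast Finset.card_le_card Finset.sdiff_subset
    rw [h0, ck_const h, zero_mul]

/-- `t` independent sets that leave fewer than `r` uncovered earlier neighbours everywhere. -/
lemma ck_cover (hPs : ∀ v, P v ⊆ range v) (n t : ℕ) (h : Fn (Indep P (range n)) 1 E)
    {d K C r m sg : ℝ} (hd : 0 < d) (hC : 0 < C) (hK : 0 < K) (hr : 0 < r)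
    (hm : m = r * K / d) (hsg : sg = 2 * C)
    (hlow : ∀ v ∈ range n, K / d ≤ E (ind v)) (hup : ∀ v, E (ind v) ≤ C / d)
    (hpair : ∀ u v, u ≠ v → E (fun I => ind u I * ind v I) ≤ C / d ^ 2)
    (hP : ∀ v, v < n → ((P v).card : ℝ) ≤ d)
    (ht : n * Real.exp (m / sg * d) * (1 - m ^ 2 / (2 * sg)) ^ t < 1)
    (h01 : m ^ 2 / (2 * sg) ≤ 1) :
    ∃ I : ℕ → Finset ℕ, (∀ i, i < t → ∀ v ∈ I i, ∀ u ∈ P v, u ∉ I i) ∧
      ∀ v, v < n → (((P v).filter (fun u => ∀ i, i < t → u ∉ I i)).card : ℝ) < r := by
  have hsg0 : 0 < sg := by rw [hsg]; positivity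
  have hm0 : 0 < m := by rw [hm]; positivity
  have hs0 : 0 ≤ m / sg := (div_pos hm0 hsg0).le
  have hρ : 0 ≤ 1 - m ^ 2 / (2 * sg) := by linarith
  have key : ∀ t : ℕ, ∃ I : ℕ → Finset ℕ, (∀ i, i < t → ∀ v ∈ I i, ∀ u ∈ P v, u ∉ I i) ∧
      Ram1.pot P n r (m / sg) ((range n).filter (fun u => ∀ i, i < t → u ∉ I i)) ≤
        (1 - m ^ 2 / (2 * sg)) ^ t * Ram1.pot P n r (m / sg) (range n) := by
    intro t
    induction t with
    | zero => exact ⟨fun _ => ∅, by simp, by simp⟩
    | succ t ih =>
      obtain ⟨I, hI1, hI2⟩ := ih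
      set U := (range n).filter (fun u => ∀ i, i < t → u ∉ I i) with hU
      obtain ⟨J, hJ, hpot⟩ := ck_round hPs n h hd hC hK hr hm hsg hlow hup hpair hP U
      refine ⟨Function.update I t J, ?_, ?_⟩
      · intro i hi v hv u hu
        by_cases hit : i = t
        · subst hit
          rw [Function.update_self] at hv ⊢
          exact hJ.2 v hv u hu
        · rw [Function.update_of_ne hit] at hv ⊢
          exact hI1 i (by omega) v hv u hu
      · have hUJ : (range n).filter (fun u => ∀ i, i < t + 1 → u ∉ Function.update I t J i) =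
            U \ J := by
          ext u
          simp only [hU, Finset.mem_filter, Finset.mem_sdiff]
          constructor
          · rintro ⟨h1, h2⟩
            refine ⟨⟨h1, ?_⟩, ?_⟩
            · intro i hi
              have := h2 i (by omega)
              rwa [Function.update_of_ne (by omega)] at this
            · have := h2 t (by omega)
              rwa [Function.update_self] at this
          · rintro ⟨⟨h1, h2⟩, h3⟩
            refine ⟨h1, fun i hi => ?_⟩
            by_cases hit : i = t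
            · subst hit; rwa [Function.update_self]
            · rw [Function.update_of_ne hit]
              exact h2 i (by omega)
        rw [hUJ]
        refine hpot.trans ?_
        rw [pow_succ' (1 - m ^ 2 / (2 * sg)) t, mul_assoc]
        exact mul_le_mul_of_nonneg_left hI2 hρ
  obtain ⟨I, hI1, hI2⟩ := key t
  refine ⟨I, hI1, ?_⟩
  have h0 : Ram1.pot P n r (m / sg) (range n) ≤ n * Real.exp (m / sg * d) := by
    unfold Ram1.pot
    calc (∑ v ∈ range n, if r ≤ ((P v ∩ range n).card : ℝ) then
          Real.exp (m / sg * ((P v ∩ range n).card : ℝ)) else 0)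
        ≤ ∑ _v ∈ range n, Real.exp (m / sg * d) := by
          refine Finset.sum_le_sum (fun v hv => ?_)
          split_ifs
          · apply Real.exp_le_exp.mpr
            apply mul_le_mul_of_nonneg_left _ hs0
            refine le_trans ?_ (hP v (Finset.mem_range.mp hv))
            exact_mod_cast Finset.card_le_card Finset.inter_subset_left
          · exact (Real.exp_pos _).le
      _ = n * Real.exp (m / sg * d) := by
          rw [Finset.sum_const, Finset.card_range, nsmul_eq_mul]
  have h1 : Ram1.pot P n r (m / sg) ((range n).filter (fun u => ∀ i, i < t → u ∉ I i)) < 1 := by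
    refine lt_of_le_of_lt hI2 (lt_of_le_of_lt (mul_le_mul_of_nonneg_left h0 (pow_nonneg hρ t)) ?_)
    refine lt_of_eq_of_lt ?_ ht
    ring
  intro v hv
  by_contra hcon
  push Not at hcon
  have hset : (P v).filter (fun u => ∀ i, i < t → u ∉ I i) =
      P v ∩ (range n).filter (fun u => ∀ i, i < t → u ∉ I i) := by
    ext u
    simp only [Finset.mem_filter, Finset.mem_inter]
    constructor
    · rintro ⟨h2, h3⟩
      have := Finset.mem_range.mp (hPs v h2)
      exact ⟨h2, Finset.mem_range.mpr (this.trans hv), h3⟩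
    · rintro ⟨h2, _, h3⟩
      exact ⟨h2, h3⟩
  rw [hset] at hcon
  have h3 : (1 : ℝ) ≤
      Ram1.pot P n r (m / sg) ((range n).filter (fun u => ∀ i, i < t → u ∉ I i)) := by
    unfold Ram1.pot
    set U := (range n).filter (fun u => ∀ i, i < t → u ∉ I i) with hU
    calc (1 : ℝ) ≤ (if r ≤ ((P v ∩ U).card : ℝ) then
            Real.exp (m / sg * ((P v ∩ U).card : ℝ)) else 0) := by
          rw [if_pos hcon]
          apply Real.one_le_exp
          positivity
      _ ≤ _ := by
          refine Finset.single_le_sum (f := fun v => (if r ≤ ((P v ∩ U).card : ℝ) then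
            Real.exp (m / sg * ((P v ∩ U).card : ℝ)) else 0))
            (fun w _ => ?_) (Finset.mem_range.mpr hv)
          split_ifs
          · exact (Real.exp_pos _).le
          · exact le_rfl
  linarith

end Rounds

/-- The colouring theorem, from `Q s K`. -/
theorem colK_of_Q (s : ℕ) (hQ : ∀ K : ℝ, 0 < K → Q s K) (lam : ℝ) (hlam : 1 ≤ lam) :
    ∃ c : ℝ, 0 < c ∧ ∃ k₀ : ℕ, ∀ k : ℕ, k₀ ≤ k → ∀ (n : ℕ) (P : ℕ → Finset ℕ),
      (∀ v, P v ⊆ range v) → (∀ v, v < n → ((P v).card : ℝ) ≤ lam * k) → KF P s (range n) →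
      (n : ℝ) ≤ Real.exp (c * k) →
      ∃ f : ℕ → ℕ, (∀ v, v < n → f v + 1 < k) ∧ ∀ v, v < n → ∀ u ∈ P v, f u ≠ f v := by
  have hlam0 : 0 < lam := lt_of_lt_of_le one_pos hlam
  set K : ℝ := 80 * lam ^ 2 with hKdef
  have hK0 : 0 < K := by rw [hKdef]; positivity
  obtain ⟨d₀, C₀, hd₀, hC₀, hE⟩ := hQ K hK0
  set C : ℝ := C₀ + K ^ 2 + 1 with hCdef
  have hC0 : 0 < C := by rw [hCdef]; positivity
  have hCC : C₀ ≤ C := by rw [hCdef]; nlinarith [sq_nonneg K]
  set sg : ℝ := 2 * C with hsg
  have hsg0 : 0 < sg := by rw [hsg]; positivity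
  refine ⟨K / (10 * sg), by positivity, max 20 ⌈d₀⌉₊, ?_⟩
  intro k hk n P hP hcard hKF hn
  have hk20 : 20 ≤ k := (le_max_left _ _).trans hk
  have hkd₀ : d₀ ≤ k := (Nat.le_ceil _).trans (by exact_mod_cast (le_max_right _ _).trans hk)
  have hk0 : (0 : ℝ) < k := by exact_mod_cast (by omega : 0 < k)
  set d : ℝ := lam * k with hd
  have hd0 : 0 < d := by rw [hd]; positivity
  have hkd : (k : ℝ) ≤ d := by rw [hd]; nlinarith
  have hPn : ∀ v ∈ range n, P v ∩ range n = P v := by
    intro v hv
    apply Finset.inter_eq_left.mpr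
    intro x hx
    exact Finset.mem_range.mpr
      ((Finset.mem_range.mp (hP v hx)).trans (Finset.mem_range.mp hv))
  obtain ⟨E, hEF, hElow, hEup, hEpair⟩ := hE d (hkd₀.trans hkd) P hP (range n) hKF (by
    intro v hv
    rw [hPn v hv]
    exact hcard v (Finset.mem_range.mp hv))
  have hEup' : ∀ v, E (ind v) ≤ C / d := fun v =>
    (hEup v).trans (div_le_div_of_nonneg_right hCC hd0.le)
  have hEpair' : ∀ u v, u ≠ v → E (fun I => ind u I * ind v I) ≤ C / d ^ 2 := fun u v huv =>
    (hEpair u v huv).trans (div_le_div_of_nonneg_right hCC (by positivity))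
  -- the number `r`
  set r : ℕ := k / 4 with hr
  have hr4 : (4 : ℝ) * r ≤ k := by
    have : 4 * r ≤ k := by omega
    exact_mod_cast this
  have hr5 : (k : ℝ) ≤ 5 * r := by
    have : k ≤ 5 * r := by omega
    exact_mod_cast this
  have hr0 : (0 : ℝ) < r := by linarith
  set m : ℝ := r * K / d with hm
  have hm0 : 0 < m := by rw [hm]; positivity
  have hmlow : K / (5 * lam) ≤ m := by
    rw [hm, div_le_div_iff₀ (by positivity) hd0, hd]
    have := mul_le_mul_of_nonneg_left hr5 (show 0 ≤ K * lam by positivity)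
    linarith
  have hmup : m ≤ K := by
    rw [hm, div_le_iff₀ hd0]
    have h1 : (r : ℝ) ≤ d := by linarith
    have := mul_le_mul_of_nonneg_right h1 hK0.le
    linarith
  have h01 : m ^ 2 / (2 * sg) ≤ 1 := by
    rw [div_le_one (by positivity)]
    have h2 : m ^ 2 ≤ K ^ 2 := pow_le_pow_left₀ hm0.le hmup 2
    rw [hsg, hCdef]
    linarith [sq_nonneg K]
  -- the number of rounds
  set t : ℕ := ⌈4 * d / m⌉₊ with ht
  have ht1 : 4 * d / m ≤ t := Nat.le_ceil _
  have ht2 : (t : ℝ) ≤ k / 4 + 1 := by
    have h1 : (t : ℝ) < 4 * d / m + 1 := Nat.ceil_lt_add_one (by positivity)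
    have h2 : 4 * d / m ≤ k / 4 := by
      rw [div_le_iff₀ hm0]
      have h3 : (k : ℝ) / 4 * (K / (5 * lam)) ≤ k / 4 * m :=
        mul_le_mul_of_nonneg_left hmlow (by positivity)
      refine le_trans (le_of_eq ?_) h3
      rw [hKdef, hd]; field_simp; norm_num
    linarith
  have htk : t + r + 1 ≤ k := by
    have h1 : (t : ℝ) + r + 1 ≤ k := by
      have : (20 : ℝ) ≤ k := by exact_mod_cast hk20
      linarith
    exact_mod_cast h1
  have hfin : n * Real.exp (m / sg * d) * (1 - m ^ 2 / (2 * sg)) ^ t < 1 := by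
    have h1 : (1 - m ^ 2 / (2 * sg)) ^ t ≤ Real.exp (-(t * (m ^ 2 / (2 * sg)))) := by
      have h2 : 1 - m ^ 2 / (2 * sg) ≤ Real.exp (-(m ^ 2 / (2 * sg))) := by
        have := Real.add_one_le_exp (-(m ^ 2 / (2 * sg)))
        linarith
      refine (pow_le_pow_left₀ (by linarith) h2 t).trans (le_of_eq ?_)
      rw [← Real.exp_nat_mul]
      congr 1
      ring
    have h3 : 2 * (m / sg * d) ≤ t * (m ^ 2 / (2 * sg)) := by
      have h4 := mul_le_mul_of_nonneg_right ht1 (show 0 ≤ m ^ 2 / (2 * sg) by positivity)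
      refine le_trans (le_of_eq ?_) h4
      field_simp
      norm_num
    calc n * Real.exp (m / sg * d) * (1 - m ^ 2 / (2 * sg)) ^ t
        ≤ Real.exp (K / (10 * sg) * k) * Real.exp (m / sg * d) *
            Real.exp (-(t * (m ^ 2 / (2 * sg)))) := by
          apply mul_le_mul
          · exact mul_le_mul_of_nonneg_right hn (Real.exp_pos _).le
          · exact h1
          · exact pow_nonneg (by linarith) t
          · positivity
      _ = Real.exp (K / (10 * sg) * k + m / sg * d + -(t * (m ^ 2 / (2 * sg)))) := by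
          rw [Real.exp_add, Real.exp_add]
      _ < 1 := by
          rw [Real.exp_lt_one_iff]
          have h5 : K / (10 * sg) * k < m / sg * d := by
            have h7 : K / (5 * lam) / sg * d ≤ m / sg * d := by
              apply mul_le_mul_of_nonneg_right _ hd0.le
              exact div_le_div_of_nonneg_right hmlow hsg0.le
            refine lt_of_lt_of_le ?_ h7
            have h8 : K / (5 * lam) / sg * d = 2 * (K / (10 * sg) * k) := by
              rw [hd]; field_simp; norm_num
            rw [h8]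
            have : 0 < K / (10 * sg) * k := by positivity
            linarith
          linarith
  obtain ⟨I, hI1, hI2⟩ := ck_cover hP n t hEF hd0 hC0 hK0 hr0 hm hsg hElow hEup' hEpair' hcard
    hfin h01
  obtain ⟨f, hf1, hf2⟩ := Ram1.colouring n t r P hP I hI1
    (fun v hv => by exact_mod_cast hI2 v hv)
  exact ⟨f, fun v hv => by have := hf1 v hv; omega, hf2⟩

end Pool.Agent.Ram2
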