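import Pool.Agent.Ram2.Defs

/-!
# Random labels: the classes have smaller clique number, and the probabilities of equal labels
-/

set_option autoImplicit false

namespace Pool.Agent.Ram2

open Finset

theorem KF.mono {P : ℕ → Finset ℕ} {s : ℕ} {X Y : Finset ℕ} (h : KF P s Y) (hXY : X ⊆ Y) :
    KF P s X := by
  induction s generalizing X Y with
  | zero =>
    intro v hv u hu hux
    exact h v (hXY hv) u hu (hXY hux)
  | succ s ih =>
    intro r hr
    exact ih (h r (hXY hr)) (filter_subset_filter _ hXY)

theorem KF.singleton {P : ℕ → Finset ℕ} (hP : ∀ v, P v ⊆ range v) (s x : ℕ) :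
    KF P s {x} := by
  induction s with
  | zero =>
    intro v hv u hu hux
    have h1 := hP v hu
    rw [mem_singleton] at hv hux
    rw [mem_range] at h1
    omega
  | succ s ih =>
    intro r _
    exact ih.mono (filter_subset _ _)

theorem lab_eq_of_mem {n : ℕ} {R A : Finset ℕ} {u a : ℕ} (h : lab n R A u = a) :
    (a ∈ A ∧ a ∈ R) ∨ n + u = a := by
  unfold lab at h
  split_ifs at h with hne
  · left
    have h1 := (A ∩ R).min'_mem hne
    rw [h] at h1
    exact mem_inter.mp h1
  · exact Or.inr h

theorem KF_class (n s : ℕ) (P : ℕ → Finset ℕ) (hP : ∀ v, P v ⊆ range v) (X R : Finset ℕ)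
    (hX : X ⊆ range n) (h : KF P (s + 1) X) (a : ℕ) :
    KF P s (X.filter (fun u => lab n R (P u ∩ X) u = a)) := by
  by_cases ha : a ∈ X
  · refine KF.mono (h a ha) ?_
    intro u hu
    rw [mem_filter] at hu ⊢
    refine ⟨hu.1, ?_⟩
    rcases lab_eq_of_mem hu.2 with h1 | h1
    · exact (mem_inter.mp h1.1).1
    · have h2 := mem_range.mp (hX ha)
      omega
  · refine KF.mono (KF.singleton hP s (a - n)) ?_
    intro u hu
    rw [mem_filter] at hu
    rw [mem_singleton]
    rcases lab_eq_of_mem hu.2 with h1 | h1
    · exact absurd (mem_inter.mp h1.1).2 ha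
    · omega

theorem sig_nonneg (n : ℕ) (ρ : ℝ) (P : ℕ → Finset ℕ) (X : Finset ℕ) (u y : ℕ) (h0 : 0 ≤ ρ)
    (h1 : ρ ≤ 1) : 0 ≤ sig n ρ P X u y := by
  unfold sig
  refine (Ram1.Ex_const (fun _ _ => ρ) n 0).symm.le.trans ?_
  refine Ram1.Ex_mono' (fun _ _ => ρ) (fun _ _ => h0) (fun _ _ => h1) n (fun _ => 0)
    (fun R => if lab n R (P u ∩ X) u = lab n R (P y ∩ X) y then 1 else 0) (fun I _ => ?_)
  by_cases h : lab n I (P u ∩ X) u = lab n I (P y ∩ X) y
  · rw [if_pos h]
    norm_num
  · rw [if_neg h]

theorem sig_le_one (n : ℕ) (ρ : ℝ) (P : ℕ → Finset ℕ) (X : Finset ℕ) (u y : ℕ) (h0 : 0 ≤ ρ)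
    (h1 : ρ ≤ 1) : sig n ρ P X u y ≤ 1 := by
  unfold sig
  refine le_trans ?_ (Ram1.Ex_const (fun _ _ => ρ) n 1).le
  refine Ram1.Ex_mono' (fun _ _ => ρ) (fun _ _ => h0) (fun _ _ => h1) n
    (fun R => if lab n R (P u ∩ X) u = lab n R (P y ∩ X) y then 1 else 0) (fun _ => 1)
    (fun I _ => ?_)
  by_cases h : lab n I (P u ∩ X) u = lab n I (P y ∩ X) y
  · rw [if_pos h]
  · rw [if_neg h]
    norm_num

theorem sig_sum (n : ℕ) (ρ : ℝ) (P : ℕ → Finset ℕ) (X : Finset ℕ) (u : ℕ) :
    Ram1.Ex (fun _ _ => ρ) n (fun R =>
      (((P u ∩ X).filter (fun y => lab n R (P u ∩ X) u = lab n R (P y ∩ X) y)).card : ℝ)) =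
      ∑ y ∈ P u ∩ X, sig n ρ P X u y := by
  unfold sig
  rw [← Ram1.Ex_sum]
  refine Ram1.Ex_congr _ n _ _ (fun I _ => ?_)
  rw [card_filter]
  push_cast
  rfl

/-- The probability that a set of seeds meets `S` in exactly `T`. -/
theorem Bern (ρ : ℝ) (n : ℕ) (S T : Finset ℕ) (hT : T ⊆ S) (hS : S ⊆ range n) :
    Ram1.Ex (fun _ _ => ρ) n (fun R => if S ∩ R = T then 1 else 0) =
      ρ ^ T.card * (1 - ρ) ^ (S \ T).card := by
  induction n generalizing S T with
  | zero =>
    have h1 : S = ∅ := by
      rw [range_zero, subset_empty] at hS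
      exact hS
    subst h1
    have h2 : T = ∅ := subset_empty.mp hT
    subst h2
    show (if (∅ : Finset ℕ) ∩ ∅ = ∅ then (1 : ℝ) else 0) = _
    simp
  | succ n ih =>
    show Ram1.Ex (fun _ _ => ρ) n (fun I => ρ * (if S ∩ (insert n I) = T then 1 else 0) +
      (1 - ρ) * (if S ∩ I = T then 1 else 0)) = _
    by_cases hn : n ∈ S
    · have hS' : S.erase n ⊆ range n := by
        intro x hx
        rw [mem_erase] at hx
        have h1 := mem_range.mp (hS hx.2)
        rw [mem_range]
        have h2 := hx.1
        omega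
      by_cases hnT : n ∈ T
      · have hT' : T.erase n ⊆ S.erase n := erase_subset_erase n hT
        have key := ih (S.erase n) (T.erase n) hT' hS'
        have h1 : Ram1.Ex (fun _ _ => ρ) n (fun I => ρ * (if S ∩ (insert n I) = T then 1 else 0) +
            (1 - ρ) * (if S ∩ I = T then 1 else 0)) =
            Ram1.Ex (fun _ _ => ρ) n (fun I => ρ * (if S.erase n ∩ I = T.erase n then 1 else 0)) := by
          refine Ram1.Ex_congr _ n _ _ (fun I hI => ?_)
          have hnI : n ∉ I := fun h => by
            have := mem_range.mp (hI h)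
            omega
          have e1 : (S ∩ I = T) = False := by
            apply eq_false
            intro h
            rw [← h] at hnT
            exact hnI (mem_inter.mp hnT).2
          have e2 : (S ∩ insert n I = T) = (S.erase n ∩ I = T.erase n) := by
            apply propext
            constructor
            · intro h
              rw [← h]
              ext x
              simp only [mem_inter, mem_erase, mem_insert]
              constructor
              · rintro ⟨⟨a, b⟩, c⟩
                exact ⟨a, b, Or.inr c⟩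
              · rintro ⟨a, b, c⟩
                rcases c with c | c
                · exact absurd c a
                · exact ⟨⟨a, b⟩, c⟩
            · intro h
              ext x
              have h2 := Finset.ext_iff.mp h x
              simp only [mem_inter, mem_erase, mem_insert] at h2 ⊢
              by_cases hx : x = n
              · subst hx
                simp [hn, hnT]
              · simp only [hx, false_or]
                simpa [hx] using h2
          simp only [e1, e2, if_false, mul_zero, add_zero]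
        rw [h1, Ram1.Ex_mul, key]
        have h2 : T.card = (T.erase n).card + 1 := by
          rw [card_erase_add_one hnT]
        have h3 : S \ T = (S.erase n) \ (T.erase n) := by
          ext x
          simp only [mem_sdiff, mem_erase]
          by_cases hx : x = n
          · subst hx
            simp [hnT]
          · simp [hx]
        rw [h2, h3]
        ring
      · have hT' : T ⊆ S.erase n := by
          intro x hx
          rw [mem_erase]
          refine ⟨?_, hT hx⟩
          rintro rfl
          exact hnT hx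
        have key := ih (S.erase n) T hT' hS'
        have h1 : Ram1.Ex (fun _ _ => ρ) n (fun I => ρ * (if S ∩ (insert n I) = T then 1 else 0) +
            (1 - ρ) * (if S ∩ I = T then 1 else 0)) =
            Ram1.Ex (fun _ _ => ρ) n (fun I => (1 - ρ) * (if S.erase n ∩ I = T then 1 else 0)) := by
          refine Ram1.Ex_congr _ n _ _ (fun I hI => ?_)
          have hnI : n ∉ I := fun h => by
            have := mem_range.mp (hI h)
            omega
          have e1 : (S ∩ insert n I = T) = False := by
            apply eq_false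
            intro h
            apply hnT
            rw [← h]
            simp [hn]
          have e2 : S ∩ I = S.erase n ∩ I := by
            ext x
            simp only [mem_inter, mem_erase]
            constructor
            · rintro ⟨a, b⟩
              refine ⟨⟨?_, a⟩, b⟩
              rintro rfl
              exact hnI b
            · rintro ⟨⟨_, a⟩, b⟩
              exact ⟨a, b⟩
          simp only [e1, e2, if_false, mul_zero, zero_add]
        rw [h1, Ram1.Ex_mul, key]
        have h3 : (S \ T).card = ((S.erase n) \ T).card + 1 := by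
          have h4 : (S \ T).erase n = (S.erase n) \ T := by
            ext x
            simp only [mem_sdiff, mem_erase]
            tauto
          rw [← h4, card_erase_add_one]
          rw [mem_sdiff]
          exact ⟨hn, hnT⟩
        rw [h3]
        ring
    · have hS' : S ⊆ range n := by
        intro x hx
        have h1 := mem_range.mp (hS hx)
        rw [mem_range]
        have h2 : x ≠ n := by
          rintro rfl
          exact hn hx
        omega
      rw [← ih S T hT hS']
      refine Ram1.Ex_congr _ n _ _ (fun I _ => ?_)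
      have e1 : S ∩ insert n I = S ∩ I := by
        ext x
        simp only [mem_inter, mem_insert]
        constructor
        · rintro ⟨a, b⟩
          rcases b with b | b
          · subst b
            exact absurd a hn
          · exact ⟨a, b⟩
        · rintro ⟨a, b⟩
          exact ⟨a, Or.inr b⟩
      rw [e1]
      ring

theorem lab_of_inter {n : ℕ} {R A B : Finset ℕ} {u x : ℕ} (hAB : A ⊆ B) (hx : x ∈ A)
    (h : B ∩ R = {x}) : lab n R A u = x := by
  have hxR : x ∈ R := by
    have : x ∈ B ∩ R := by
      rw [h]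
      exact mem_singleton_self x
    exact (mem_inter.mp this).2
  have h1 : A ∩ R = {x} := by
    ext z
    rw [mem_singleton]
    constructor
    · intro hz
      have h2 : z ∈ B ∩ R := mem_inter.mpr ⟨hAB (mem_inter.mp hz).1, (mem_inter.mp hz).2⟩
      rw [h] at h2
      exact mem_singleton.mp h2
    · rintro rfl
      exact mem_inter.mpr ⟨hx, hxR⟩
  have h2 : (A ∩ R).Nonempty := ⟨x, by rw [h1]; exact mem_singleton_self x⟩
  unfold lab
  rw [dif_pos h2]
  have h3 : ∀ z ∈ A ∩ R, z = x := by
    intro z hz
    rw [h1] at hz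
    exact mem_singleton.mp hz
  exact h3 _ ((A ∩ R).min'_mem h2)

theorem sig_lower (n : ℕ) (D : ℝ) (hD : 2 ≤ D) (P : ℕ → Finset ℕ) (X : Finset ℕ)
    (hX : X ⊆ range n) (u y : ℕ) (_huy : u ≠ y) (hu : ((P u ∩ X).card : ℝ) ≤ D)
    (hy : ((P y ∩ X).card : ℝ) ≤ D) :
    (((P y ∩ P u) ∩ X).card : ℝ) ≤ 64 * D * sig n (1 / D) P X u y := by
  have hDpos : 0 < D := by linarith
  set ρ : ℝ := 1 / D with hρ
  have hρ0 : 0 ≤ ρ := by positivity
  have hρ2 : ρ ≤ 1 / 2 := by
    rw [hρ]
    exact one_div_le_one_div_of_le (by norm_num) hD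
  have hρ1 : ρ ≤ 1 := by linarith
  set S := (P u ∩ X) ∪ (P y ∩ X) with hSdef
  set M := (P y ∩ P u) ∩ X with hMdef
  have hMA : ∀ x ∈ M, x ∈ P u ∩ X := by
    intro x hx
    rw [hMdef] at hx
    simp only [mem_inter] at hx ⊢
    tauto
  have hMB : ∀ x ∈ M, x ∈ P y ∩ X := by
    intro x hx
    rw [hMdef] at hx
    simp only [mem_inter] at hx ⊢
    tauto
  have hS : S ⊆ range n := by
    intro x hx
    rw [hSdef, mem_union] at hx
    rcases hx with hx | hx
    · exact hX (mem_inter.mp hx).2
    · exact hX (mem_inter.mp hx).2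
  have hScard : (S.card : ℝ) ≤ 2 * D := by
    have h1 : S.card ≤ (P u ∩ X).card + (P y ∩ X).card := card_union_le _ _
    have h2 : (S.card : ℝ) ≤ (P u ∩ X).card + (P y ∩ X).card := by exact_mod_cast h1
    linarith
  -- lower bound for the probability
  have hlow : ∑ x ∈ M, (ρ * (1 - ρ) ^ (S \ {x}).card) ≤ sig n ρ P X u y := by
    have h1 : ∀ x ∈ M, ρ * (1 - ρ) ^ (S \ {x}).card =
        Ram1.Ex (fun _ _ => ρ) n (fun R => if S ∩ R = {x} then 1 else 0) := by
      intro x hx
      rw [Bern ρ n S {x} (by
        rw [singleton_subset_iff, hSdef]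
        exact mem_union_left _ (hMA x hx)) hS]
      simp
    rw [sum_congr rfl h1, ← Ram1.Ex_sum]
    unfold sig
    refine Ram1.Ex_mono' _ (fun _ _ => hρ0) (fun _ _ => hρ1) n _ _ (fun R _ => ?_)
    by_cases hex : ∃ x ∈ M, S ∩ R = {x}
    · obtain ⟨x, hxM, hx⟩ := hex
      have e1 : lab n R (P u ∩ X) u = x :=
        lab_of_inter (B := S) (by rw [hSdef]; exact subset_union_left) (hMA x hxM) hx
      have e2 : lab n R (P y ∩ X) y = x :=
        lab_of_inter (B := S) (by rw [hSdef]; exact subset_union_right) (hMB x hxM) hx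
      rw [if_pos (by rw [e1, e2])]
      rw [hx]
      have h3 : ∀ z ∈ M, z ≠ x → (if ({x} : Finset ℕ) = {z} then (1 : ℝ) else 0) = 0 := by
        intro z _ hz
        rw [if_neg]
        intro h
        exact hz (singleton_injective h).symm
      rw [sum_eq_single_of_mem x hxM h3]
      simp
    · rw [sum_eq_zero]
      · split_ifs <;> norm_num
      · intro x hx
        rw [if_neg]
        intro h
        exact hex ⟨x, hx, h⟩
  -- each term is at least ρ / 64
  have hterm : ∀ x ∈ M, ρ / 64 ≤ ρ * (1 - ρ) ^ (S \ {x}).card := by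
    intro x _
    have hk : ((S \ {x}).card : ℝ) ≤ 2 * D := by
      have h1 : (S \ {x}).card ≤ S.card := card_le_card sdiff_subset
      have h2 : ((S \ {x}).card : ℝ) ≤ S.card := by exact_mod_cast h1
      linarith
    have h3 := Ram1.inv_le_exp ρ hρ0 hρ2
    have hpos : 0 < 1 - ρ := by linarith
    have h4 : ((1 - ρ)⁻¹) ^ (S \ {x}).card ≤ Real.exp 4 := by
      calc ((1 - ρ)⁻¹) ^ (S \ {x}).card ≤ (Real.exp (2 * ρ)) ^ (S \ {x}).card :=
            pow_le_pow_left₀ (by positivity) h3 _
        _ = Real.exp (((S \ {x}).card : ℝ) * (2 * ρ)) := by rw [Real.exp_nat_mul]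
        _ ≤ Real.exp 4 := by
            apply Real.exp_le_exp.mpr
            calc ((S \ {x}).card : ℝ) * (2 * ρ) ≤ (2 * D) * (2 * ρ) :=
                  mul_le_mul_of_nonneg_right hk (by positivity)
              _ = 4 * (D * ρ) := by ring
              _ = 4 := by
                  rw [hρ, mul_one_div_cancel hDpos.ne', mul_one]
    have h5 : Real.exp 4 ≤ 64 := by
      have h6 : Real.exp 4 = (Real.exp 1) ^ 4 := by
        rw [← Real.exp_nat_mul]
        norm_num
      rw [h6]
      have h7 := Real.exp_one_lt_d9
      have h8 : (Real.exp 1) ^ 4 ≤ 2.7182818286 ^ 4 :=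
        pow_le_pow_left₀ (Real.exp_pos 1).le h7.le 4
      refine h8.trans ?_
      norm_num
    have h9 : 1 / 64 ≤ (1 - ρ) ^ (S \ {x}).card := by
      have h10 : ((1 - ρ) ^ (S \ {x}).card)⁻¹ ≤ 64 := by
        rw [← inv_pow]
        exact h4.trans h5
      have h11 : 0 < (1 - ρ) ^ (S \ {x}).card := by positivity
      rw [inv_le_comm₀ h11 (by norm_num)] at h10
      rw [one_div]
      exact h10
    calc ρ / 64 = ρ * (1 / 64) := by ring
      _ ≤ ρ * (1 - ρ) ^ (S \ {x}).card := mul_le_mul_of_nonneg_left h9 hρ0
  have hsum : (M.card : ℝ) * (ρ / 64) ≤ sig n ρ P X u y := by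
    calc (M.card : ℝ) * (ρ / 64) = ∑ x ∈ M, ρ / 64 := by
          rw [sum_const, nsmul_eq_mul]
      _ ≤ ∑ x ∈ M, (ρ * (1 - ρ) ^ (S \ {x}).card) := sum_le_sum hterm
      _ ≤ _ := hlow
  calc (M.card : ℝ) = 64 * D * ((M.card : ℝ) * (ρ / 64)) := by
        rw [hρ]
        field_simp
    _ ≤ 64 * D * sig n ρ P X u y := mul_le_mul_of_nonneg_left hsum (by positivity)

end Pool.Agent.Ram2
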