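import Pool.Agent.Ram2.Hash

/-!
# Lower bound for the probability of equal labels: see `sig_lower` in `Pool.Agent.Ram2.Hash`
-/
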