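import Pool.Agent.Ram2.ColK

/-!
# Graphs with a degenerate order and bounded clique number are colourable (MP_4e6f39_co)
-/

set_option autoImplicit false

namespace Pool.Agent.Ram2

open Finset

/-- If `X` is not `KF P s` it contains a clique with `s + 2` vertices. -/
theorem clique_of_not_KF (P : ℕ → Finset ℕ) (hP : ∀ v, P v ⊆ range v) (s : ℕ) :
    ∀ X : Finset ℕ, ¬ KF P s X → ∃ l : Finset ℕ, l ⊆ X ∧ l.card = s + 2 ∧
      ∀ a ∈ l, ∀ b ∈ l, a ≠ b → a ∈ P b ∨ b ∈ P a := by
  induction s with
  | zero =>
    intro X h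
    simp only [KF] at h
    push Not at h
    obtain ⟨v, hv, u, hu, huX⟩ := h
    have huv : u < v := mem_range.mp (hP v hu)
    refine ⟨{u, v}, ?_, ?_, ?_⟩
    · intro x hx
      rw [mem_insert, mem_singleton] at hx
      rcases hx with h | h
      · rw [h]; exact huX
      · rw [h]; exact hv
    · rw [card_pair huv.ne]
    · intro a ha b hb hab
      rw [mem_insert, mem_singleton] at ha hb
      rcases ha with ha | ha <;> rcases hb with hb | hb
      · exact absurd (ha.trans hb.symm) hab
      · rw [ha, hb]; exact Or.inl hu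
      · rw [ha, hb]; exact Or.inr hu
      · exact absurd (ha.trans hb.symm) hab
  | succ s ih =>
    intro X h
    simp only [KF] at h
    push Not at h
    obtain ⟨r, hr, hr2⟩ := h
    obtain ⟨l, hl1, hl2, hl3⟩ := ih _ hr2
    have hrl : ∀ u ∈ l, r ∈ P u := fun u hu => (mem_filter.mp (hl1 hu)).2
    have hrnot : r ∉ l := fun h => absurd (mem_range.mp (hP r (hrl r h))) (lt_irrefl r)
    refine ⟨insert r l, ?_, ?_, ?_⟩
    · intro x hx
      rw [mem_insert] at hx
      rcases hx with h | h
      · rw [h]; exact hr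
      · exact (mem_filter.mp (hl1 h)).1
    · rw [card_insert_of_notMem hrnot, hl2]
    · intro a ha b hb hab
      rw [mem_insert] at ha hb
      rcases ha with ha | ha <;> rcases hb with hb | hb
      · exact absurd (ha.trans hb.symm) hab
      · rw [ha]; exact Or.inl (hrl b hb)
      · rw [hb]; exact Or.inr (hrl a ha)
      · exact hl3 a ha b hb hab

open scoped Classical in
/-- A graph without `K_{s+2}` with a degenerate order is colourable. -/
theorem colourableK_of_order (s : ℕ) (hQ : ∀ K : ℝ, 0 < K → Q s K) (lam : ℝ) (hlam : 1 ≤ lam) :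
    ∃ c : ℝ, 0 < c ∧ ∃ k₀ : ℕ, ∀ k : ℕ, k₀ ≤ k →
    ∀ (W : Type) [Fintype W] (F : SimpleGraph W) (e : W ≃ Fin (Fintype.card W)) (d : ℕ),
    (∀ v, (univ.filter (fun u => F.Adj v u ∧ e u < e v)).card ≤ d) →
    (d : ℝ) ≤ lam * k → F.CliqueFree (s + 2) →
    (Fintype.card W : ℝ) ≤ Real.exp (c * k) → F.Colorable (k - 1) := by
  obtain ⟨c, hc, k₀, hcol⟩ := colK_of_Q s hQ lam hlam
  refine ⟨c, hc, k₀, ?_⟩
  intro k hk W _ F e d hd hdk hcf hn
  -- the back neighbourhood of a vertex
  set B : W → Finset W := fun v => univ.filter (fun u => F.Adj v u ∧ e u < e v) with hB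
  set P : ℕ → Finset ℕ := fun v => if h : v < Fintype.card W then (B (e.symm ⟨v, h⟩)).image (fun u => (e u : ℕ))
    else ∅ with hP
  have hPe : ∀ w : W, P (e w) = (B w).image (fun u => (e u : ℕ)) := by
    intro w
    simp only [hP]
    rw [dif_pos (e w).2]
    simp
  have hinj : Function.Injective (fun u : W => (e u : ℕ)) := by
    intro a b hab
    exact e.injective (Fin.ext hab)
  have hPsub : ∀ v, P v ⊆ range v := by
    intro v
    by_cases h : v < Fintype.card W
    · intro x hx
      simp only [hP] at hx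
      rw [dif_pos h, mem_image] at hx
      obtain ⟨u, hu, rfl⟩ := hx
      simp only [hB, mem_filter] at hu
      have := hu.2.2
      rw [Equiv.apply_symm_apply] at this
      exact mem_range.mpr this
    · simp only [hP]
      rw [dif_neg h]
      exact empty_subset _
  have hsurj : ∀ v, v < Fintype.card W → ∃ w : W, (e w : ℕ) = v := by
    intro v hv
    exact ⟨e.symm ⟨v, hv⟩, by simp⟩
  have hBd : ∀ v, (B v).card ≤ d := hd
  have hPcard : ∀ v, v < Fintype.card W → ((P v).card : ℝ) ≤ lam * k := by
    intro v hv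
    obtain ⟨w, rfl⟩ := hsurj v hv
    rw [hPe, card_image_of_injective _ hinj]
    refine le_trans ?_ hdk
    exact_mod_cast hBd w
  -- an edge of the order graph is an edge of `F`
  have hadj : ∀ x y : W, (e x : ℕ) ∈ P (e y) → F.Adj x y := by
    intro x y hxy
    rw [hPe, mem_image] at hxy
    obtain ⟨u, hu, hux⟩ := hxy
    have hux' : u = x := hinj hux
    rw [hux'] at hu
    exact ((mem_filter.mp hu).2.1).symm
  have hKF : KF P s (range (Fintype.card W)) := by
    by_contra hcon
    obtain ⟨l, hl1, hl2, hl3⟩ := clique_of_not_KF P hPsub s _ hcon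
    set t : Finset W := univ.filter (fun w => (e w : ℕ) ∈ l) with ht
    have him : t.image (fun u => (e u : ℕ)) = l := by
      ext x
      rw [mem_image]
      constructor
      · rintro ⟨w, hw, rfl⟩
        exact (mem_filter.mp hw).2
      · intro hx
        obtain ⟨w, hw⟩ := hsurj x (mem_range.mp (hl1 hx))
        exact ⟨w, mem_filter.mpr ⟨mem_univ _, by rw [hw]; exact hx⟩, hw⟩
    have htc : t.card = s + 2 := by
      rw [← hl2, ← him, card_image_of_injective _ hinj]
    refine hcf t ⟨?_, htc⟩
    intro x hx y hy hxy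
    have hx' : (e x : ℕ) ∈ l := (mem_filter.mp (mem_coe.mp hx)).2
    have hy' : (e y : ℕ) ∈ l := (mem_filter.mp (mem_coe.mp hy)).2
    rcases hl3 _ hx' _ hy' (fun h => hxy (hinj h)) with h | h
    · exact hadj x y h
    · exact (hadj y x h).symm
  obtain ⟨f, hf1, hf2⟩ := hcol k hk (Fintype.card W) P hPsub hPcard hKF hn
  refine ⟨⟨fun w => ⟨f (e w), ?_⟩, ?_⟩⟩
  · have := hf1 (e w) (e w).2
    omega
  · intro u w huw
    have hne : u ≠ w := huw.ne
    have key : ∀ a b : W, F.Adj a b → e a < e b → f (e a) ≠ f (e b) := by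
      intro a b hab hlt
      apply hf2 (e b) (e b).2
      rw [hPe]
      apply mem_image_of_mem
      exact mem_filter.mpr ⟨mem_univ _, hab.symm, hlt⟩
    rw [SimpleGraph.top_adj]
    intro hh
    have hh' : f (e u) = f (e w) := congrArg Fin.val hh
    rcases lt_trichotomy (e u) (e w) with h | h | h
    · exact key u w huw h hh'
    · exact hne (e.injective h)
    · exact key w u huw.symm h hh'.symm

end Pool.Agent.Ram2
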