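import Pool.Agent.Ram2.Prod
import Pool.Agent.Ram2.Hash

/-!
# The kernel: random classes and independent sets inside the classes
-/

set_option autoImplicit false

namespace Pool.Agent.Ram2

open Finset Ram1

theorem lab_lt (n : ℕ) (R A : Finset ℕ) (u : ℕ) (hA : A ⊆ range n) (hu : u < n) :
    lab n R A u < 2 * n := by
  unfold lab
  split
  · rename_i h
    have h1 := (A ∩ R).min'_mem h
    have h2 := mem_range.mp (hA (mem_inter.mp h1).1)
    omega
  · omega

/-- One step: a random set `J ⊆ X` of density `K' / D` that is independent inside random classes. -/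
theorem kern (s : ℕ) (K' : ℝ) (hK' : 0 < K') (hQ : Q s K') :
    ∃ d₀ C : ℝ, 1 ≤ d₀ ∧ 0 ≤ C ∧ ∀ D : ℝ, d₀ ≤ D → ∀ ρ : ℝ, 0 ≤ ρ → ρ ≤ 1 →
      ∀ P : ℕ → Finset ℕ, (∀ v, P v ⊆ range v) → ∀ (n : ℕ) (X : Finset ℕ), X ⊆ range n →
      KF P (s + 1) X → ∃ E : (Finset ℕ → ℝ) → ℝ, Fn (fun J => J ⊆ X) 1 E ∧
        (∀ u ∈ X, K' / D * (1 - (∑ y ∈ P u ∩ X, sig n ρ P X u y) / D) ≤ E (ind u)) ∧
        (∀ u, E (ind u) ≤ K' / D) ∧
        (∀ u v, u ≠ v → E (fun J => ind u J * ind v J) ≤ C * (K' / D) ^ 2) ∧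
        ∀ u ∈ X, ∀ y ∈ P u ∩ X,
          E (fun J => ind u J * ind y J) ≤ (K' / D) ^ 2 * (1 - sig n ρ P X u y) := by
  classical
  obtain ⟨d₀, C₀, hd₀, hC₀, hQ⟩ := hQ
  refine ⟨d₀, max 1 (C₀ / K' ^ 2), hd₀, le_trans zero_le_one (le_max_left _ _), ?_⟩
  intro D hD ρ hρ0 hρ1 P hP n X hX hKF
  have hD0 : 0 < D := by linarith
  set π : ℝ := K' / D with hπ
  have hπ0 : 0 < π := by positivity
  -- classes
  set l : Finset ℕ → ℕ → ℕ := fun R u => lab n R (P u ∩ X) u with hl
  set Cl : Finset ℕ → ℕ → Finset ℕ := fun R a => X.filter (fun u => l R u = a) with hCl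
  set C : Finset ℕ → ℕ → Finset ℕ := fun R a =>
    (Cl R a).filter (fun u => ((P u ∩ Cl R a).card : ℝ) ≤ D) with hCdef
  have hCsub : ∀ R a, C R a ⊆ Cl R a := fun R a => filter_subset _ _
  have hCX : ∀ R a, C R a ⊆ X := fun R a => (hCsub R a).trans (filter_subset _ _)
  have hClab : ∀ R a v, v ∈ C R a → l R v = a := fun R a v hv =>
    (mem_filter.mp (hCsub R a hv)).2
  have hdisj : ∀ R a b, a ≠ b → Disjoint (C R a) (C R b) := by
    intro R a b hab
    rw [disjoint_left]
    intro v h1 h2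
    exact hab ((hClab R a v h1).symm.trans (hClab R b v h2))
  -- laws in the classes
  have hlaw : ∀ R a, ∃ E' : (Finset ℕ → ℝ) → ℝ, Fn (Indep P (C R a)) 1 E' ∧
      (∀ v ∈ C R a, E' (ind v) = π) ∧
      ∀ u v, u ≠ v → E' (fun I => ind u I * ind v I) ≤ C₀ / D ^ 2 := by
    intro R a
    obtain ⟨E₀, h1, h2, h3, h4⟩ := hQ D hD P hP (C R a)
      ((KF_class n s P hP X R hX hKF a).mono (hCsub R a)) (by
        intro v hv
        refine le_trans ?_ (mem_filter.mp hv).2
        exact_mod_cast card_le_card (inter_subset_inter (Subset.refl _) (hCsub R a)))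
    obtain ⟨E', h5, h6, h7⟩ := thin h1 π hπ0.le h2
    exact ⟨E', h5, h6, fun u v huv => (h7 u v huv).trans (h4 u v huv)⟩
  choose L hL1 hL2 hL3 using hlaw
  have hAC : ∀ R a I, Indep P (C R a) I → I ⊆ C R a := fun R a I hI => hI.1
  have hPd : ∀ R, Fn (Sup (C R) (fun a => Indep P (C R a)) (2 * n)) 1 (Pd (L R) (2 * n)) :=
    fun R => Pd_fn (hdisj R) (hAC R) (hL1 R) (2 * n)
  have hPdX : ∀ R, Fn (fun J => J ⊆ X) 1 (Pd (L R) (2 * n)) := by
    intro R
    apply (hPd R).weaken
    intro J hJ x hx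
    obtain ⟨a, _, hxa⟩ := hJ.1 x hx
    exact hCX R a hxa
  -- label of a vertex of X
  have hlt : ∀ R u, u ∈ X → l R u < 2 * n := by
    intro R u hu
    exact lab_lt n R (P u ∩ X) u (inter_subset_right.trans hX) (mem_range.mp (hX hu))
  have hval : ∀ R u, u ∈ C R (l R u) → Pd (L R) (2 * n) (ind u) = π := by
    intro R u hu
    rw [Pd_ind (hdisj R) (hAC R) (hL1 R) (2 * n) (l R u) (hlt R u (hCX R _ hu)) u hu]
    exact hL2 R _ u hu
  have hval0 : ∀ R u, u ∉ C R (l R u) → Pd (L R) (2 * n) (ind u) = 0 := by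
    intro R u hu
    apply Pd_ind_zero (hdisj R) (hAC R) (hL1 R)
    intro a _ hua
    apply hu
    rw [hClab R a u hua]
    exact hua
  have hle : ∀ R u, Pd (L R) (2 * n) (ind u) ≤ π := by
    intro R u
    by_cases hu : u ∈ C R (l R u)
    · exact (hval R u hu).le
    · rw [hval0 R u hu]
      exact hπ0.le
  have hpair0 : ∀ R u v, u ∉ C R (l R u) →
      Pd (L R) (2 * n) (fun J => ind u J * ind v J) ≤ 0 := by
    intro R u v hu
    rw [← hval0 R u hu]
    apply (hPd R).mono
    intro J _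
    have := ind_le_one v J
    have := ind_nonneg u J
    nlinarith
  have hpair0' : ∀ R u v, v ∉ C R (l R v) →
      Pd (L R) (2 * n) (fun J => ind u J * ind v J) ≤ 0 := by
    intro R u v hv
    rw [← hval0 R v hv]
    apply (hPd R).mono
    intro J _
    have := ind_le_one u J
    have := ind_nonneg v J
    nlinarith
  have hpairne : ∀ R u v, l R u ≠ l R v →
      Pd (L R) (2 * n) (fun J => ind u J * ind v J) ≤ π ^ 2 := by
    intro R u v hne
    by_cases hu : u ∈ C R (l R u)
    · by_cases hv : v ∈ C R (l R v)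
      · rw [Pd_ind_pair (hdisj R) (hAC R) (hL1 R) (2 * n) _ _ hne (hlt R u (hCX R _ hu))
          (hlt R v (hCX R _ hv)) u v hu hv, hL2 R _ u hu, hL2 R _ v hv]
        rw [sq]
      · exact (hpair0' R u v hv).trans (sq_nonneg _)
    · exact (hpair0 R u v hu).trans (sq_nonneg _)
  have hEx := Ex_fn (fun _ _ => ρ) (fun _ _ => hρ0) (fun _ _ => hρ1) n
  refine ⟨fun f => Ex (fun _ _ => ρ) n (fun R => Pd (L R) (2 * n) f), ?_, ?_, ?_, ?_, ?_⟩
  · have h1 := hEx.bind (B := fun J => J ⊆ X) (m' := 1) (fun R f => Pd (L R) (2 * n) f)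
      (fun R _ => hPdX R)
    rw [one_mul] at h1
    exact h1
  · intro u hu
    have h1 : Ex (fun _ _ => ρ) n (fun R => π - π / D * (((P u ∩ X).filter
        (fun y => lab n R (P u ∩ X) u = lab n R (P y ∩ X) y)).card : ℝ)) ≤
        Ex (fun _ _ => ρ) n (fun R => Pd (L R) (2 * n) (ind u)) := by
      apply hEx.mono
      intro R _
      have hcnt : (((P u ∩ X).filter
          (fun y => lab n R (P u ∩ X) u = lab n R (P y ∩ X) y)).card : ℝ) =
          ((P u ∩ Cl R (l R u)).card : ℝ) := by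
        congr 2
        ext y
        simp only [hCl, hl, mem_filter, mem_inter]
        constructor
        · rintro ⟨⟨h1, h2⟩, h3⟩
          exact ⟨h1, h2, h3.symm⟩
        · rintro ⟨h1, h2, h3⟩
          exact ⟨⟨h1, h2⟩, h3.symm⟩
      rw [hcnt]
      by_cases hu2 : u ∈ C R (l R u)
      · rw [hval R u hu2]
        have : 0 ≤ π / D * ((P u ∩ Cl R (l R u)).card : ℝ) := by positivity
        linarith
      · rw [hval0 R u hu2]
        have h3 : D < ((P u ∩ Cl R (l R u)).card : ℝ) := by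
          by_contra hcon
          exact hu2 (mem_filter.mpr ⟨mem_filter.mpr ⟨hu, rfl⟩, not_lt.mp hcon⟩)
        have h4 : π = π / D * D := by field_simp
        have h5 : π / D * D ≤ π / D * ((P u ∩ Cl R (l R u)).card : ℝ) :=
          mul_le_mul_of_nonneg_left h3.le (by positivity)
        linarith
    refine le_trans (le_of_eq ?_) h1
    rw [hEx.sub, hEx.const, hEx.smul, sig_sum]
    rw [mul_one]
    field_simp
  · intro u
    have h1 : Ex (fun _ _ => ρ) n (fun R => Pd (L R) (2 * n) (ind u)) ≤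
        Ex (fun _ _ => ρ) n (fun _ => π) := hEx.mono _ _ (fun R _ => hle R u)
    rw [hEx.const, mul_one] at h1
    exact h1
  · intro u v huv
    have h1 : Ex (fun _ _ => ρ) n (fun R => Pd (L R) (2 * n) (fun J => ind u J * ind v J)) ≤
        Ex (fun _ _ => ρ) n (fun _ => max 1 (C₀ / K' ^ 2) * π ^ 2) := by
      apply hEx.mono
      intro R _
      have hC1 : π ^ 2 ≤ max 1 (C₀ / K' ^ 2) * π ^ 2 := by
        have := le_max_left 1 (C₀ / K' ^ 2)
        nlinarith [sq_nonneg π]
      have hC2 : C₀ / D ^ 2 ≤ max 1 (C₀ / K' ^ 2) * π ^ 2 := by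
        have h3 : C₀ / D ^ 2 = (C₀ / K' ^ 2) * π ^ 2 := by
          rw [hπ]
          field_simp
        rw [h3]
        exact mul_le_mul_of_nonneg_right (le_max_right _ _) (sq_nonneg _)
      by_cases hne : l R u = l R v
      · by_cases hu : u ∈ C R (l R u)
        · by_cases hv : v ∈ C R (l R v)
          · rw [← hne] at hv
            rw [Pd_ind_same (hdisj R) (hAC R) (hL1 R) (2 * n) _ (hlt R u (hCX R _ hu)) u v hu hv]
            exact (hL3 R _ u v huv).trans hC2
          · exact (hpair0' R u v hv).trans (le_trans (sq_nonneg π) hC1)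
        · exact (hpair0 R u v hu).trans (le_trans (sq_nonneg π) hC1)
      · exact (hpairne R u v hne).trans hC1
    rw [hEx.const, mul_one] at h1
    exact h1
  · intro u hu y hy
    have hyu : y ∈ P u := (mem_inter.mp hy).1
    have h1 : Ex (fun _ _ => ρ) n (fun R => Pd (L R) (2 * n) (fun J => ind u J * ind y J)) ≤
        Ex (fun _ _ => ρ) n (fun R => π ^ 2 - π ^ 2 *
          (if lab n R (P u ∩ X) u = lab n R (P y ∩ X) y then 1 else 0)) := by
      apply hEx.mono
      intro R _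
      by_cases hne : l R u = l R y
      · rw [if_pos hne]
        have h3 : π ^ 2 - π ^ 2 * 1 = 0 := by ring
        rw [h3]
        by_cases hu2 : u ∈ C R (l R u)
        · by_cases hy2 : y ∈ C R (l R y)
          · rw [← hne] at hy2
            rw [Pd_ind_same (hdisj R) (hAC R) (hL1 R) (2 * n) _ (hlt R u (hCX R _ hu2)) u y hu2 hy2]
            rw [(hL1 R _).congr _ (fun _ => 0), (hL1 R _).zero]
            intro I hI
            by_cases hu3 : u ∈ I
            · rw [ind_of_not_mem (hI.2 u hu3 y hyu), mul_zero]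
            · rw [ind_of_not_mem hu3, zero_mul]
          · exact hpair0' R u y hy2
        · exact hpair0 R u y hu2
      · rw [if_neg hne]
        have h3 : π ^ 2 - π ^ 2 * 0 = π ^ 2 := by ring
        rw [h3]
        exact hpairne R u y hne
    refine le_trans h1 (le_of_eq ?_)
    rw [hEx.sub, hEx.const, hEx.smul]
    show π ^ 2 * 1 - π ^ 2 * sig n ρ P X u y = _
    ring

end Pool.Agent.Ram2
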