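import Pool.Agent.Ram2.Defs

/-!
# Positive linear functionals (laws of random finite sets)
-/

set_option autoImplicit false

namespace Pool.Agent.Ram2

open Finset Ram1

variable {A B : Finset ℕ → Prop} {m m' : ℝ} {E E' : (Finset ℕ → ℝ) → ℝ}

theorem Fn.congr (h : Fn A m E) (f g : Finset ℕ → ℝ) (hfg : ∀ I, A I → f I = g I) : E f = E g :=
  le_antisymm (h.mono f g (fun I hI => (hfg I hI).le)) (h.mono g f (fun I hI => (hfg I hI).ge))

theorem Fn.const (h : Fn A m E) (c : ℝ) : E (fun _ => c) = c * m := by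
  have h1 := h.smul c (fun _ => 1)
  rw [h.one] at h1
  rw [← h1]
  congr 1
  funext _
  rw [mul_one]

theorem Fn.zero (h : Fn A m E) : E (fun _ => 0) = 0 := by
  rw [h.const, zero_mul]

theorem Fn.sum (h : Fn A m E) {ι : Type} (s : Finset ι) (f : ι → Finset ℕ → ℝ) :
    E (fun I => ∑ i ∈ s, f i I) = ∑ i ∈ s, E (f i) := by
  classical
  induction s using Finset.induction_on with
  | empty => simpa using h.zero
  | insert a s ha ih =>
    rw [sum_insert ha, ← ih, ← h.add]
    congr 1
    funext I
    rw [sum_insert ha]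

theorem Fn.sub (h : Fn A m E) (f g : Finset ℕ → ℝ) :
    E (fun I => f I - g I) = E f - E g := by
  have h1 : E (fun I => f I - g I) = E (fun I => f I + (-1) * g I) := by
    congr 1
    funext I
    ring
  rw [h1, h.add, h.smul]
  ring

theorem Fn.nonneg (h : Fn A m E) (f : Finset ℕ → ℝ) (hf : ∀ I, A I → 0 ≤ f I) : 0 ≤ E f := by
  have h1 := h.mono (fun _ => 0) f hf
  rwa [h.zero] at h1

theorem Fn.weaken (h : Fn A m E) (hAB : ∀ I, A I → B I) : Fn B m E where
  add := h.add
  smul := h.smul
  mono := fun f g hfg => h.mono f g (fun I hI => hfg I (hAB I hI))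
  one := h.one

/-- Composition with functionals that depend on the set. -/
theorem Fn.bind (h : Fn A m E) (F : Finset ℕ → (Finset ℕ → ℝ) → ℝ)
    (hF : ∀ J, A J → Fn B m' (F J)) : Fn B (m * m') (fun f => E (fun J => F J f)) where
  add := by
    intro f g
    show E (fun J => F J (fun I => f I + g I)) = E (fun J => F J f) + E (fun J => F J g)
    rw [← h.add]
    exact h.congr _ _ (fun J hJ => (hF J hJ).add f g)
  smul := by
    intro c f
    show E (fun J => F J (fun I => c * f I)) = c * E (fun J => F J f)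
    rw [← h.smul]
    exact h.congr _ _ (fun J hJ => (hF J hJ).smul c f)
  mono := by
    intro f g hfg
    exact h.mono _ _ (fun J hJ => (hF J hJ).mono f g hfg)
  one := by
    show E (fun J => F J (fun _ => 1)) = m * m'
    rw [h.congr _ (fun _ => m') (fun J hJ => (hF J hJ).one), h.const]
    ring

theorem Fn.map (h : Fn A m E) (φ : Finset ℕ → Finset ℕ) (hφ : ∀ I, A I → B (φ I)) :
    Fn B m (fun f => E (fun I => f (φ I))) where
  add := fun f g => h.add _ _
  smul := fun c f => h.smul _ _
  mono := fun f g hfg => h.mono _ _ (fun I hI => hfg _ (hφ I hI))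
  one := h.one

theorem Fn.addFn (h₁ : Fn A m E) (h₂ : Fn A m' E') : Fn A (m + m') (fun f => E f + E' f) where
  add := by
    intro f g
    show E (fun I => f I + g I) + E' (fun I => f I + g I) = E f + E' f + (E g + E' g)
    rw [h₁.add, h₂.add]
    ring
  smul := by
    intro c f
    show E (fun I => c * f I) + E' (fun I => c * f I) = c * (E f + E' f)
    rw [h₁.smul, h₂.smul]
    ring
  mono := fun f g hfg => add_le_add (h₁.mono f g hfg) (h₂.mono f g hfg)
  one := by
    show E (fun _ => 1) + E' (fun _ => 1) = m + m'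
    rw [h₁.one, h₂.one]

theorem Fn.scale (h : Fn A m E) (c : ℝ) (hc : 0 ≤ c) : Fn A (c * m) (fun f => c * E f) where
  add := by
    intro f g
    show c * E (fun I => f I + g I) = c * E f + c * E g
    rw [h.add]
    ring
  smul := by
    intro a f
    show c * E (fun I => a * f I) = a * (c * E f)
    rw [h.smul]
    ring
  mono := fun f g hfg => mul_le_mul_of_nonneg_left (h.mono f g hfg) hc
  one := by
    show c * E (fun _ => 1) = c * m
    rw [h.one]

theorem Fn.zeroFn : Fn A 0 (fun _ => 0) where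
  add := fun _ _ => by simp
  smul := fun _ _ => by simp
  mono := fun _ _ _ => le_refl _
  one := rfl

/-- Some outcome is at most the expectation. -/
theorem Fn.exists_le (h : Fn A 1 E) (n : ℕ) (hA : ∀ I, A I → I ⊆ range n) (f : Finset ℕ → ℝ) :
    ∃ I, A I ∧ f I ≤ E f := by
  classical
  by_contra hcon
  push Not at hcon
  -- the finitely many outcomes
  set S := (range n).powerset.filter (fun I => A I) with hS
  have hmem : ∀ I, A I → I ∈ S := fun I hI => mem_filter.mpr ⟨mem_powerset.mpr (hA I hI), hI⟩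
  rcases S.eq_empty_or_nonempty with h0 | hne
  · have h1 : E (fun _ => 1) ≤ E (fun _ => 0) := by
      apply h.mono
      intro I hI
      have := hmem I hI
      rw [h0] at this
      exact absurd this (notMem_empty I)
    rw [h.one, h.zero] at h1
    linarith
  · obtain ⟨I₀, hI₀, hmin⟩ := S.exists_min_image f hne
    have h1 : E (fun _ => f I₀) ≤ E f := h.mono _ _ (fun I hI => hmin I (hmem I hI))
    rw [h.const, mul_one] at h1
    have h2 := hcon I₀ (mem_filter.mp hI₀).2
    linarith

theorem Ex_fn (q : ℕ → Finset ℕ → ℝ) (h0 : ∀ x I, 0 ≤ q x I) (h1 : ∀ x I, q x I ≤ 1) (n : ℕ) :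
    Fn (fun I => I ⊆ range n) 1 (Ex q n) where
  add := Ex_add q n
  smul := Ex_mul q n
  mono := Ex_mono' q h0 h1 n
  one := Ex_const q n 1

/-! ### Independent thinning -/

theorem Ex_ind (θ : ℕ → ℝ) (n v : ℕ) (hv : v < n) (c : ℝ) :
    Ex (fun x _ => θ x) n (fun B => if v ∈ B then c else 0) = θ v * c := by
  rw [Ex_loc _ (v + 1) n hv]
  · show Ex (fun x _ => θ x) v (fun I => θ v * (if v ∈ insert v I then c else 0) +
      (1 - θ v) * (if v ∈ I then c else 0)) = _
    rw [Ex_congr _ v _ (fun _ => θ v * c), Ex_const]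
    intro I hI
    have h1 : v ∉ I := fun h => by
      have := mem_range.mp (hI h)
      omega
    simp [h1]
  · intro y I hy
    have : v ≠ y := by omega
    simp [this]

theorem Ex_ind2 (θ : ℕ → ℝ) (n u v : ℕ) (huv : u < v) (hv : v < n) :
    Ex (fun x _ => θ x) n (fun B => if u ∈ B ∧ v ∈ B then 1 else 0) = θ u * θ v := by
  rw [Ex_loc _ (v + 1) n hv]
  · show Ex (fun x _ => θ x) v (fun I => θ v * (if u ∈ insert v I ∧ v ∈ insert v I then 1 else 0) +
      (1 - θ v) * (if u ∈ I ∧ v ∈ I then 1 else 0)) = _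
    rw [Ex_congr _ v _ (fun I => θ v * (if u ∈ I then 1 else 0)), Ex_mul, Ex_ind θ v u huv]
    · ring
    · intro I hI
      have h1 : v ∉ I := fun h => by
        have := mem_range.mp (hI h)
        omega
      have h2 : u ≠ v := huv.ne
      simp [h1, h2]
  · intro y I hy
    have h1 : v ≠ y := by omega
    have h2 : u ≠ y := by omega
    simp [h1, h2]

theorem Ex_ind2' (θ : ℕ → ℝ) (n u v : ℕ) (huv : u ≠ v) (hu : u < n) (hv : v < n) :
    Ex (fun x _ => θ x) n (fun B => if u ∈ B ∧ v ∈ B then 1 else 0) = θ u * θ v := by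
  rcases lt_or_gt_of_ne huv with h | h
  · exact Ex_ind2 θ n u v h hv
  · have h1 := Ex_ind2 θ n v u h hu
    rw [mul_comm (θ u), ← h1]
    congr 1
    funext B
    simp only [and_comm]

theorem ind_nonneg (v : ℕ) (I : Finset ℕ) : 0 ≤ ind v I := by
  unfold ind; split <;> norm_num

theorem ind_le_one (v : ℕ) (I : Finset ℕ) : ind v I ≤ 1 := by
  unfold ind; split <;> norm_num

theorem ind_of_mem {v : ℕ} {I : Finset ℕ} (h : v ∈ I) : ind v I = 1 := by simp [ind, h]

theorem ind_of_not_mem {v : ℕ} {I : Finset ℕ} (h : v ∉ I) : ind v I = 0 := by simp [ind, h]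

/-- Thinning a random independent set to exact density `π`. -/
theorem thin {P : ℕ → Finset ℕ} {X : Finset ℕ} (h : Fn (Indep P X) 1 E) (π : ℝ) (hπ : 0 ≤ π)
    (hE : ∀ v ∈ X, π ≤ E (ind v)) :
    ∃ E' : (Finset ℕ → ℝ) → ℝ, Fn (Indep P X) 1 E' ∧ (∀ v ∈ X, E' (ind v) = π) ∧
      ∀ u v, u ≠ v → E' (fun I => ind u I * ind v I) ≤ E (fun I => ind u I * ind v I) := by
  classical
  obtain ⟨n, hn⟩ : ∃ n, X ⊆ range n := by
    refine ⟨X.sup id + 1, fun x hx => mem_range.mpr ?_⟩
    have : x ≤ X.sup id := le_sup (f := id) hx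
    omega
  set θ : ℕ → ℝ := fun v => if v ∈ X ∧ E (ind v) ≠ 0 then π / E (ind v) else 0 with hθ
  have hE0 : ∀ v, 0 ≤ E (ind v) := fun v => h.nonneg _ (fun I _ => ind_nonneg v I)
  have hθ0 : ∀ v, 0 ≤ θ v := by
    intro v
    simp only [hθ]
    split
    · exact div_nonneg hπ (hE0 v)
    · exact le_refl _
  have hθ1 : ∀ v, θ v ≤ 1 := by
    intro v
    simp only [hθ]
    split
    · rename_i hv
      exact div_le_one_of_le₀ (hE v hv.1) (hE0 v)
    · norm_num
  have hfn := Ex_fn (fun x _ => θ x) (fun x _ => hθ0 x) (fun x _ => hθ1 x) n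
  refine ⟨fun f => E (fun J => Ex (fun x _ => θ x) n (fun B => f (J ∩ B))), ?_, ?_, ?_⟩
  · have h1 := h.bind (B := Indep P X) (m' := 1)
      (fun J f => Ex (fun x _ => θ x) n (fun B => f (J ∩ B)))
      (fun J hJ => hfn.map (fun B => J ∩ B) (fun B _ => by
        refine ⟨inter_subset_left.trans hJ.1, ?_⟩
        intro v hv u hu hu2
        exact hJ.2 v (mem_inter.mp hv).1 u hu (mem_inter.mp hu2).1))
    simpa using h1
  · intro v hv
    have hvn : v < n := mem_range.mp (hn hv)
    have h1 : ∀ J : Finset ℕ, Ex (fun x _ => θ x) n (fun B => ind v (J ∩ B)) = θ v * ind v J := by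
      intro J
      rw [← Ex_ind θ n v hvn (ind v J)]
      congr 1
      funext B
      by_cases hB : v ∈ B <;> by_cases hJ : v ∈ J <;> simp [ind, hB, hJ]
    show E (fun J => Ex (fun x _ => θ x) n (fun B => ind v (J ∩ B))) = π
    rw [show (fun J : Finset ℕ => Ex (fun x _ => θ x) n (fun B => ind v (J ∩ B))) =
      fun J => θ v * ind v J from funext h1, h.smul]
    simp only [hθ]
    by_cases h0 : E (ind v) = 0
    · have h2 := hE v hv
      rw [h0] at h2
      have : π = 0 := le_antisymm h2 hπ
      simp [h0, this]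
    · rw [if_pos ⟨hv, h0⟩]
      field_simp
  · intro u v huv
    have h0 : ∀ J : Finset ℕ, Indep P X J →
        Ex (fun x _ => θ x) n (fun B => ind u (J ∩ B) * ind v (J ∩ B)) ≤ ind u J * ind v J := by
      intro J hJ
      by_cases hu : u ∈ J
      · by_cases hv : v ∈ J
        · rw [ind_of_mem hu, ind_of_mem hv]
          have h2 : Ex (fun x _ => θ x) n (fun B => ind u (J ∩ B) * ind v (J ∩ B)) ≤
              Ex (fun x _ => θ x) n (fun _ => 1) := by
            apply hfn.mono
            intro B _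
            have := ind_le_one u (J ∩ B)
            have := ind_le_one v (J ∩ B)
            have := ind_nonneg u (J ∩ B)
            have := ind_nonneg v (J ∩ B)
            nlinarith
          rw [hfn.one] at h2
          linarith
        · have h2 : ∀ B : Finset ℕ, ind v (J ∩ B) = 0 := fun B =>
            ind_of_not_mem (fun h => hv (mem_inter.mp h).1)
          simp only [h2, mul_zero]
          rw [hfn.zero]
          exact mul_nonneg (ind_nonneg _ _) (ind_nonneg _ _)
      · have h2 : ∀ B : Finset ℕ, ind u (J ∩ B) = 0 := fun B =>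
          ind_of_not_mem (fun h => hu (mem_inter.mp h).1)
        simp only [h2, zero_mul]
        rw [hfn.zero]
        exact mul_nonneg (ind_nonneg _ _) (ind_nonneg _ _)
    exact h.mono _ _ h0

end Pool.Agent.Ram2
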