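import Pool.Agent.Ram2.Law

/-!
# The Martinsson–Steiner part
-/

set_option autoImplicit false

namespace Pool.Agent.Ram2

open Finset Ram1

variable {P : ℕ → Finset ℕ} {W δ : ℝ} {p : ℕ → Finset ℕ → ℝ}

theorem Sys_fn (S : Sys P W δ p) (n : ℕ) :
    Fn (fun I => I ⊆ range n ∧ ∀ v ∈ I, ∀ u ∈ P v, u ∉ I) 1 (Ex p n) where
  add := Ex_add p n
  smul := Ex_mul p n
  one := Ex_const p n 1
  mono := by
    intro f g hfg
    apply Ex_mono p S.nonneg S.le_one (fun n I => I ⊆ range n ∧ ∀ v ∈ I, ∀ u ∈ P v, u ∉ I)
    · exact ⟨by simp, by simp⟩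
    · rintro n I ⟨h1, h2⟩
      exact ⟨h1.trans (range_subset_range.mpr (Nat.le_succ n)), h2⟩
    · rintro n I ⟨h1, h2⟩ hn
      refine ⟨insert_subset (by simp) (h1.trans (range_subset_range.mpr (Nat.le_succ n))), ?_⟩
      intro v hv u hu huI
      rcases mem_insert.mp hv with rfl | hv
      · have hlt : u < v := mem_range.mp (S.sub v hu)
        rcases mem_insert.mp huI with h | h
        · omega
        · exact hn (S.zero v I ⟨u, hu, h⟩)
      · have hlt : u < v := mem_range.mp (S.sub v hu)
        have hvn : v < n := mem_range.mp (h1 hv)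
        rcases mem_insert.mp huI with h | h
        · omega
        · exact h2 v hv u hu h
    · exact hfg

theorem Sys_ind_le (S : Sys P W δ p) (n v : ℕ) : Ex p n (ind v) ≤ δ * W := by
  have hδW : 0 ≤ δ * W := mul_nonneg S.pos.le (by linarith [S.one_le])
  by_cases hv : v < n
  · have h1 : Ex p n (ind v) = Ex p n (fun I => if v ∈ I then (1 : ℝ) else 0) := rfl
    rw [h1, S.mem v n hv]
    have h2 := Ex_mono' p S.nonneg S.le_one v (fun I => p v I) (fun _ => δ * W)
      (fun I _ => S.le v I)
    rwa [Ex_const] at h2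
  · rw [Ex_congr p n (ind v) (fun _ => 0), Ex_const]
    · exact hδW
    · intro I hI
      apply ind_of_not_mem
      intro h
      exact hv (mem_range.mp (hI h))

theorem Sys_pair_le_aux (S : Sys P W δ p) (n u v : ℕ) (huv : u < v) :
    Ex p n (fun I => ind u I * ind v I) ≤ (δ * W) ^ 2 := by
  have hδW : 0 ≤ δ * W := mul_nonneg S.pos.le (by linarith [S.one_le])
  by_cases hv : v < n
  · rw [Ex_loc p (v + 1) n hv]
    · show Ex p v (fun I => p v I * (ind u (insert v I) * ind v (insert v I)) +
        (1 - p v I) * (ind u I * ind v I)) ≤ _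
      have h1 : Ex p v (fun I => p v I * (ind u (insert v I) * ind v (insert v I)) +
        (1 - p v I) * (ind u I * ind v I)) ≤ Ex p v (fun I => δ * W * ind u I) := by
        apply Ex_mono' p S.nonneg S.le_one
        intro I hI
        have e1 : v ∉ I := fun h => by
          have := mem_range.mp (hI h)
          omega
        have e2 : ind v I = 0 := ind_of_not_mem e1
        have e3 : ind v (insert v I) = 1 := ind_of_mem (mem_insert_self _ _)
        have e4 : ind u (insert v I) = ind u I := by
          unfold ind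
          have : u ≠ v := huv.ne
          simp [this]
        rw [e2, e3, e4]
        have := mul_le_mul_of_nonneg_right (S.le v I) (ind_nonneg u I)
        linarith
      rw [Ex_mul] at h1
      have h2 := mul_le_mul_of_nonneg_left (Sys_ind_le S v u) hδW
      calc _ ≤ δ * W * Ex p v (ind u) := h1
        _ ≤ δ * W * (δ * W) := h2
        _ = (δ * W) ^ 2 := by ring
    · intro y I hy
      have h1 : u ≠ y := by omega
      have h2 : v ≠ y := by omega
      simp [ind, h1, h2]
  · rw [Ex_congr p n _ (fun _ => 0), Ex_const]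
    · exact sq_nonneg _
    · intro I hI
      rw [ind_of_not_mem (v := v) (fun h => hv (mem_range.mp (hI h))), mul_zero]

theorem Sys_pair_le (S : Sys P W δ p) (n u v : ℕ) (huv : u ≠ v) :
    Ex p n (fun I => ind u I * ind v I) ≤ (δ * W) ^ 2 := by
  rcases lt_or_gt_of_ne huv with h | h
  · exact Sys_pair_le_aux S n u v h
  · have h1 := Sys_pair_le_aux S n v u h
    refine le_trans (le_of_eq ?_) h1
    congr 1
    funext I
    ring

theorem ind_inter' {v : ℕ} {S J : Finset ℕ} (hv : v ∈ S) : ind v J = ind v (J ∩ S) := by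
  by_cases h : v ∈ J
  · rw [ind_of_mem h, ind_of_mem (mem_inter.mpr ⟨h, hv⟩)]
  · rw [ind_of_not_mem h, ind_of_not_mem (fun hh => h (mem_inter.mp hh).1)]

/-- The Martinsson–Steiner law on the vertices of small degree. The hypothesis `hsig` is the lower
bound for the probability of a common label. -/
theorem ms (W : ℝ) (hW : 1 < W) (d : ℝ) (hd1 : 1 ≤ d) (hd : W * Real.log W ≤ d)
    (P : ℕ → Finset ℕ) (hP : ∀ v, P v ⊆ range v) (n : ℕ) (X : Finset ℕ) (hX : X ⊆ range n)
    (hsig0 : ∀ u y, 0 ≤ sig n (1 / (8 * d)) P X u y)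
    (hsig : ∀ u y, u ≠ y → ((P u ∩ X).card : ℝ) ≤ 8 * d → ((P y ∩ X).card : ℝ) ≤ 8 * d →
      (((P y ∩ P u) ∩ X).card : ℝ) ≤ 64 * (8 * d) * sig n (1 / (8 * d)) P X u y) :
    ∃ E : (Finset ℕ → ℝ) → ℝ, Fn (Indep P X) 1 E ∧
      (∀ v ∈ X, Real.log W / (192 * d) * (1 - ((P v ∩ X).card : ℝ) / (8 * d) -
        8 / 3 * W ^ 2 * Real.log W / d * ∑ y ∈ P v ∩ X, sig n (1 / (8 * d)) P X v y) ≤
        E (ind v)) ∧
      (∀ v, E (ind v) ≤ W * Real.log W / (96 * d)) ∧
      ∀ u v, u ≠ v → E (fun I => ind u I * ind v I) ≤ (W * Real.log W / (96 * d)) ^ 2 := by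
  classical
  have hlog : 0 < Real.log W := Real.log_pos hW
  have hd0 : 0 < d := by linarith
  set δ : ℝ := Real.log W / (96 * d) with hδ
  have hδ0 : 0 < δ := by positivity
  have hδW : δ * W = W * Real.log W / (96 * d) := by rw [hδ]; ring
  have hhalf : δ * W ≤ 1 / 2 := by
    rw [hδW, div_le_iff₀ (by positivity)]
    linarith
  set X' := X.filter (fun u => ((P u ∩ X).card : ℝ) ≤ 8 * d) with hX'
  have hX'X : X' ⊆ X := filter_subset _ _
  set P' : ℕ → Finset ℕ := fun v => if v ∈ X' then P v ∩ X' else ∅ with hP'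
  have hP'in : ∀ v, v ∈ X' → P' v = P v ∩ X' := fun v hv => by simp [hP', hv]
  have hP'sub : ∀ v, P' v ⊆ range v := by
    intro v
    simp only [hP']
    split
    · exact inter_subset_left.trans (hP v)
    · exact empty_subset _
  obtain ⟨p, S⟩ := Sys_exists P' hP'sub W δ hW.le hδ0 hhalf
  have hfn := Sys_fn S n
  refine ⟨fun f => Ex p n (fun I => f (I ∩ X')), ?_, ?_, ?_, ?_⟩
  · apply hfn.map (fun I => I ∩ X')
    rintro I ⟨h1, h2⟩
    refine ⟨inter_subset_right.trans hX'X, ?_⟩
    intro v hv u hu huI
    rw [mem_inter] at hv huI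
    apply h2 v hv.1 u _ huI.1
    rw [hP'in v hv.2]
    exact mem_inter.mpr ⟨hu, huI.2⟩
  · intro v hv
    have hE0 : 0 ≤ Ex p n (fun I => ind v (I ∩ X')) := hfn.nonneg _ (fun I _ => ind_nonneg _ _)
    have hs0 : 0 ≤ ∑ y ∈ P v ∩ X, sig n (1 / (8 * d)) P X v y := sum_nonneg (fun y _ => hsig0 v y)
    have hc0 : 0 ≤ Real.log W / (192 * d) := by positivity
    by_cases h1 : v ∈ X'
    · have hvdeg : ((P v ∩ X).card : ℝ) ≤ 8 * d := (mem_filter.mp h1).2
      by_cases h2 : 8 / 3 * W ^ 2 * Real.log W / d *
          ∑ y ∈ P v ∩ X, sig n (1 / (8 * d)) P X v y ≤ 1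
      · have hvn : v < n := mem_range.mp (hX hv)
        have hcount : ∑ u ∈ P' v, ((P' u ∩ P' v).card : ℝ) ≤
            64 * (8 * d) * ∑ y ∈ P v ∩ X, sig n (1 / (8 * d)) P X v y := by
          rw [mul_sum]
          have e1 : P' v ⊆ P v ∩ X := by
            rw [hP'in v h1]
            exact inter_subset_inter (Subset.refl _) hX'X
          refine le_trans ?_ (sum_le_sum_of_subset_of_nonneg e1 (fun y _ _ =>
            mul_nonneg (by positivity) (hsig0 v y)))
          apply sum_le_sum
          intro u hu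
          have hu' : u ∈ P v ∧ u ∈ X' := by
            rw [hP'in v h1] at hu
            exact mem_inter.mp hu
          have huv : v ≠ u := by
            have := mem_range.mp (hP v hu'.1)
            omega
          refine le_trans ?_ (hsig v u huv hvdeg (mem_filter.mp hu'.2).2)
          have e2 : P' u ∩ P' v ⊆ (P u ∩ P v) ∩ X := by
            rw [hP'in v h1, hP'in u hu'.2]
            intro x hx
            simp only [mem_inter] at hx ⊢
            exact ⟨⟨hx.1.1, hx.2.1⟩, hX'X hx.1.2⟩
          exact_mod_cast card_le_card e2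
        have hmean := S.mean (8 * d) v n hvn
          (by
            refine le_trans ?_ hvdeg
            rw [hP'in v h1]
            exact_mod_cast card_le_card (inter_subset_inter (Subset.refl _) hX'X))
          (by
            have e3 : 4 * δ * W ^ 2 * ∑ u ∈ P' v, ((P' u ∩ P' v).card : ℝ) ≤
                4 * δ * W ^ 2 * (64 * (8 * d) * ∑ y ∈ P v ∩ X, sig n (1 / (8 * d)) P X v y) :=
              mul_le_mul_of_nonneg_left hcount (by positivity)
            refine le_trans e3 ?_
            have e4 : 4 * δ * W ^ 2 * (64 * (8 * d) * ∑ y ∈ P v ∩ X,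
                sig n (1 / (8 * d)) P X v y) = (8 * d) * (8 / 3 * W ^ 2 * Real.log W / d *
                ∑ y ∈ P v ∩ X, sig n (1 / (8 * d)) P X v y) := by
              rw [hδ]
              field_simp
              ring
            rw [e4]
            have := mul_le_mul_of_nonneg_left h2 (by positivity : 0 ≤ 8 * d)
            linarith)
          (by
            rw [hδ]
            have : 12 * (Real.log W / (96 * d)) * (8 * d) = Real.log W := by
              field_simp
              ring
            linarith) hW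
        have e5 : Ex p n (fun I => ind v (I ∩ X')) = Ex p n (fun I => if v ∈ I then 1 else 0) := by
          congr 1
          funext I
          rw [← ind_inter' h1]
          rfl
        show _ ≤ Ex p n (fun I => ind v (I ∩ X'))
        rw [e5]
        refine le_trans ?_ hmean
        have e6 : Real.log W / (192 * d) = δ / 2 := by
          rw [hδ]
          field_simp
          ring
        rw [e6]
        have e7 : 0 ≤ ((P v ∩ X).card : ℝ) / (8 * d) := by positivity
        have e8 : 0 ≤ 8 / 3 * W ^ 2 * Real.log W / d *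
          ∑ y ∈ P v ∩ X, sig n (1 / (8 * d)) P X v y := mul_nonneg (by positivity) hs0
        have e9 : (1 - ((P v ∩ X).card : ℝ) / (8 * d) - 8 / 3 * W ^ 2 * Real.log W / d *
          ∑ y ∈ P v ∩ X, sig n (1 / (8 * d)) P X v y) ≤ 1 := by linarith
        have := mul_le_mul_of_nonneg_left e9 (by positivity : 0 ≤ δ / 2)
        linarith
      · refine le_trans ?_ hE0
        apply mul_nonpos_of_nonneg_of_nonpos hc0
        have e7 : 0 ≤ ((P v ∩ X).card : ℝ) / (8 * d) := by positivity
        have := not_le.mp h2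
        linarith
    · refine le_trans ?_ hE0
      apply mul_nonpos_of_nonneg_of_nonpos hc0
      have h3 : ¬ ((P v ∩ X).card : ℝ) ≤ 8 * d := fun h => h1 (mem_filter.mpr ⟨hv, h⟩)
      have e7 : 1 ≤ ((P v ∩ X).card : ℝ) / (8 * d) := by
        rw [le_div_iff₀ (by positivity)]
        linarith [not_le.mp h3]
      have e8 : 0 ≤ 8 / 3 * W ^ 2 * Real.log W / d *
        ∑ y ∈ P v ∩ X, sig n (1 / (8 * d)) P X v y := mul_nonneg (by positivity) hs0
      linarith
  · intro v
    rw [← hδW]
    refine le_trans ?_ (Sys_ind_le S n v)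
    apply hfn.mono
    intro I _
    unfold ind
    by_cases h : v ∈ I
    · simp only [h, if_true]
      split <;> norm_num
    · have : v ∉ I ∩ X' := fun hh => h (mem_inter.mp hh).1
      simp [h]
  · intro u v huv
    rw [← hδW]
    refine le_trans ?_ (Sys_pair_le S n u v huv)
    apply hfn.mono
    intro I _
    have key : ∀ w, ind w (I ∩ X') ≤ ind w I := by
      intro w
      unfold ind
      by_cases h : w ∈ I
      · simp only [h, if_true]
        split <;> norm_num
      · have : w ∉ I ∩ X' := fun hh => h (mem_inter.mp hh).1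
        simp [h]
    exact mul_le_mul (key u) (key v) (ind_nonneg _ _) (ind_nonneg _ _)

end Pool.Agent.Ram2
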