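import Pool.Agent.Ram2.KFree
import Pool.Agent.Ram1.Ord
import Pool.Agent.Ram1.Low
import Pool.Agent.Ram1.Main

/-!
# From colouring graphs of bounded clique number to Ramsey numbers (MP_4e6f39_co)
-/

set_option autoImplicit false

namespace Pool.Agent.Ram2

open Finset Ram1

theorem mainK_of_Q (s A : ℕ) (hQ : ∀ K : ℝ, 0 < K → Q s K) (ε : ℝ) (hε : 0 < ε) :
    ∃ c : ℝ, 0 < c ∧ ∃ k₀ : ℕ,
    ∀ (V W : Type) [Finite V] [Fintype W] (G : SimpleGraph V) (F : SimpleGraph W) (k : ℕ),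
    G.chromaticNumber = k → k₀ ≤ k → F.IsContained G → ε * k ≤ F.chromaticNumber.toNat →
    (Fintype.card W : ℝ) ≤ Real.exp (c * k) → F.CliqueFree (s + 2) →
    A ^ k < ramseyNumber G ∧ ramseyNumber (⊤ : SimpleGraph (Fin k)) < ramseyNumber G := by
  classical
  -- constants
  set a : ℕ := A + 4 with ha
  set lam : ℝ := 2 * a / ε + 1 with hlamdef
  have hlam : 1 ≤ lam := by
    have : 0 ≤ 2 * (a : ℝ) / ε := by positivity
    linarith
  obtain ⟨c₁, hc₁, k₁, hcol⟩ := colourableK_of_order s hQ lam hlam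
  refine ⟨c₁ * ε, by positivity, ⌈(k₁ : ℝ) / ε⌉₊ + 1, ?_⟩
  intro V W _ _ G F k hk hk₀ hFG hχ hcard hcf
  have hkpos : 1 ≤ k := by omega
  have hkR : (1 : ℝ) ≤ k := by exact_mod_cast hkpos
  have hk₁ : (k₁ : ℝ) ≤ ε * k := by
    have h1 : (k₁ : ℝ) / ε ≤ ⌈(k₁ : ℝ) / ε⌉₊ := Nat.le_ceil _
    have h2 : ((⌈(k₁ : ℝ) / ε⌉₊ + 1 : ℕ) : ℝ) ≤ k := by exact_mod_cast hk₀
    push_cast at h2
    have h3 : (k₁ : ℝ) / ε ≤ k := by linarith
    rw [div_le_iff₀ hε] at h3
    linarith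
  -- it suffices to bound `a ^ k`
  suffices hmain : a ^ k < ramseyNumber G by
    refine ⟨lt_of_le_of_lt (Nat.pow_le_pow_left (by omega) k) hmain, ?_⟩
    refine lt_of_le_of_lt (ramsey_top_le k) (lt_of_le_of_lt (Nat.pow_le_pow_left (by omega) k) hmain)
  set d : ℕ := 2 * a * k with hd
  have hN : (a ^ k) ^ 2 ≤ 2 ^ d := by
    have h1 : a ≤ 2 ^ a := Nat.lt_two_pow_self.le
    calc (a ^ k) ^ 2 = a ^ (2 * k) := by rw [← pow_mul]; ring_nf
      _ ≤ (2 ^ a) ^ (2 * k) := Nat.pow_le_pow_left h1 _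
      _ = 2 ^ d := by rw [← pow_mul, hd]; ring_nf
  by_cases hU : ∃ U : Finset W, U.Nonempty ∧ ∀ u ∈ U, d < (U.filter (fun w => F.Adj u w)).card
  · obtain ⟨U, hU1, hU2⟩ := hU
    have hd1 : 1 ≤ d := by
      rw [hd, ha]
      nlinarith
    obtain ⟨H, h1, h2⟩ := low F U hU1 d hd1 hU2 (a ^ k) hN
    exact lt_ramseyNumber G H (fun h => h1 (hFG.trans h)) (fun h => h2 (hFG.trans h))
  · exfalso
    push Not at hU
    obtain ⟨e, he⟩ := order F d hU
    set kF := F.chromaticNumber.toNat with hkF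
    have hkF1 : k₁ ≤ kF := by
      have : (k₁ : ℝ) ≤ kF := hk₁.trans hχ
      exact_mod_cast this
    have hkFpos : (0 : ℝ) < kF := lt_of_lt_of_le (by positivity) hχ
    have hkFk : (k : ℝ) ≤ kF / ε := by
      rw [le_div_iff₀ hε]
      linarith
    have hcol' := hcol kF hkF1 W F e d (by intro v; convert he v) ?_ hcf ?_
    · have h1 : F.chromaticNumber ≤ (kF - 1 : ℕ) := hcol'.chromaticNumber_le
      have h2 : kF ≤ kF - 1 := by
        have := ENat.toNat_le_toNat h1 (ENat.natCast_ne_top _)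
        rw [ENat.toNat_natCast] at this
        exact this
      have h3 : 0 < kF := by exact_mod_cast hkFpos
      omega
    · -- degree
      rw [hd, hlamdef]
      push_cast
      have h1 : 2 * (a : ℝ) * k ≤ 2 * a * (kF / ε) :=
        mul_le_mul_of_nonneg_left hkFk (by positivity)
      have h2 : 2 * (a : ℝ) * (kF / ε) = 2 * a / ε * kF := by ring
      nlinarith
    · refine hcard.trans ?_
      apply Real.exp_le_exp.mpr
      nlinarith

end Pool.Agent.Ram2
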