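import Pool.Agent.Ram2.Law

/-!
# Products of laws on disjoint classes
-/

set_option autoImplicit false

namespace Pool.Agent.Ram2

open Finset

variable {C : ℕ → Finset ℕ} {A : ℕ → Finset ℕ → Prop} {L : ℕ → (Finset ℕ → ℝ) → ℝ}

/-- The support of the product law. -/
def Sup (C : ℕ → Finset ℕ) (A : ℕ → Finset ℕ → Prop) (N : ℕ) (J : Finset ℕ) : Prop :=
  (∀ x ∈ J, ∃ a, a < N ∧ x ∈ C a) ∧ ∀ a, a < N → A a (J ∩ C a)

theorem union_inter_old (hC : ∀ a b, a ≠ b → Disjoint (C a) (C b)) {N a : ℕ} (ha : a < N)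
    {J I : Finset ℕ} (hI : I ⊆ C N) : (J ∪ I) ∩ C a = J ∩ C a := by
  ext x
  simp only [mem_inter, mem_union]
  constructor
  · rintro ⟨h1 | h1, h2⟩
    · exact ⟨h1, h2⟩
    · exact absurd h2 (disjoint_left.mp (hC N a (by omega)) (hI h1))
  · rintro ⟨h1, h2⟩
    exact ⟨Or.inl h1, h2⟩

theorem union_inter_new (hC : ∀ a b, a ≠ b → Disjoint (C a) (C b)) {N : ℕ}
    {J I : Finset ℕ} (hJ : ∀ x ∈ J, ∃ a, a < N ∧ x ∈ C a) (hI : I ⊆ C N) :
    (J ∪ I) ∩ C N = I := by
  ext x
  simp only [mem_inter, mem_union]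
  constructor
  · rintro ⟨h1 | h1, h2⟩
    · obtain ⟨a, ha, hx⟩ := hJ x h1
      exact absurd h2 (disjoint_left.mp (hC a N (by omega)) hx)
    · exact h1
  · intro h1
    exact ⟨Or.inr h1, hI h1⟩

theorem Pd_fn (hC : ∀ a b, a ≠ b → Disjoint (C a) (C b)) (hA : ∀ a I, A a I → I ⊆ C a)
    (hL : ∀ a, Fn (A a) 1 (L a)) (N : ℕ) : Fn (Sup C A N) 1 (Pd L N) := by
  induction N with
  | zero =>
    exact
      { add := fun _ _ => rfl
        smul := fun _ _ => rfl
        mono := fun f g hfg => hfg ∅ ⟨by simp, fun a ha => absurd ha (Nat.not_lt_zero a)⟩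
        one := rfl }
  | succ N ih =>
    have h1 := ih.bind (B := Sup C A (N + 1)) (m' := 1)
      (fun J f => L N (fun I => f (J ∪ I)))
      (fun J hJ => (hL N).map (fun I => J ∪ I) (fun I hI => by
        refine ⟨?_, ?_⟩
        · intro x hx
          rcases mem_union.mp hx with h | h
          · obtain ⟨a, ha, hxa⟩ := hJ.1 x h
            exact ⟨a, by omega, hxa⟩
          · exact ⟨N, by omega, hA N I hI h⟩
        · intro a ha
          rcases Nat.lt_succ_iff_lt_or_eq.mp ha with h | h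
          · rw [union_inter_old hC h (hA N I hI)]
            exact hJ.2 a h
          · subst h
            rw [union_inter_new hC hJ.1 (hA a I hI)]
            exact hI))
    rw [one_mul] at h1
    exact h1

theorem Pd_single (hC : ∀ a b, a ≠ b → Disjoint (C a) (C b)) (hA : ∀ a I, A a I → I ⊆ C a)
    (hL : ∀ a, Fn (A a) 1 (L a)) (N a : ℕ) (ha : a < N) (g : Finset ℕ → ℝ) :
    Pd L N (fun J => g (J ∩ C a)) = L a g := by
  induction N with
  | zero => exact absurd ha (Nat.not_lt_zero a)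
  | succ N ih =>
    show Pd L N (fun J => L N (fun I => g ((J ∪ I) ∩ C a))) = L a g
    have hP := Pd_fn hC hA hL N
    rcases Nat.lt_succ_iff_lt_or_eq.mp ha with h | h
    · rw [← ih h]
      apply hP.congr
      intro J _
      rw [(hL N).congr _ (fun _ => g (J ∩ C a))
        (fun I hI => by rw [union_inter_old hC h (hA N I hI)]), (hL N).const]
      ring
    · subst h
      rw [hP.congr _ (fun _ => L a g), hP.const]
      · ring
      · intro J hJ
        apply (hL a).congr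
        intro I hI
        rw [union_inter_new hC hJ.1 (hA a I hI)]

theorem Pd_pair (hC : ∀ a b, a ≠ b → Disjoint (C a) (C b)) (hA : ∀ a I, A a I → I ⊆ C a)
    (hL : ∀ a, Fn (A a) 1 (L a)) (N a b : ℕ) (hab : a < b) (hb : b < N) (g h : Finset ℕ → ℝ) :
    Pd L N (fun J => g (J ∩ C a) * h (J ∩ C b)) = L a g * L b h := by
  induction N with
  | zero => exact absurd hb (Nat.not_lt_zero b)
  | succ N ih =>
    show Pd L N (fun J => L N (fun I => g ((J ∪ I) ∩ C a) * h ((J ∪ I) ∩ C b))) = L a g * L b h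
    have hP := Pd_fn hC hA hL N
    rcases Nat.lt_succ_iff_lt_or_eq.mp hb with hlt | heq
    · rw [← ih hlt]
      apply hP.congr
      intro J _
      rw [(hL N).congr _ (fun _ => g (J ∩ C a) * h (J ∩ C b))
        (fun I hI => by rw [union_inter_old hC (by omega : a < N) (hA N I hI),
          union_inter_old hC hlt (hA N I hI)]), (hL N).const]
      ring
    · subst heq
      have h1 : ∀ J, Sup C A b J → L b (fun I => g ((J ∪ I) ∩ C a) * h ((J ∪ I) ∩ C b)) =
          L b h * g (J ∩ C a) := by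
        intro J hJ
        rw [(hL b).congr _ (fun I => g (J ∩ C a) * h I)
          (fun I hI => by rw [union_inter_old hC hab (hA b I hI),
            union_inter_new hC hJ.1 (hA b I hI)]), (hL b).smul]
        ring
      rw [hP.congr _ (fun J => L b h * g (J ∩ C a)) h1, hP.smul, Pd_single hC hA hL b a hab]
      ring

theorem ind_inter {v : ℕ} {S J : Finset ℕ} (hv : v ∈ S) : ind v J = ind v (J ∩ S) := by
  by_cases h : v ∈ J
  · rw [ind_of_mem h, ind_of_mem (mem_inter.mpr ⟨h, hv⟩)]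
  · rw [ind_of_not_mem h, ind_of_not_mem (fun hh => h (mem_inter.mp hh).1)]

theorem Pd_ind (hC : ∀ a b, a ≠ b → Disjoint (C a) (C b)) (hA : ∀ a I, A a I → I ⊆ C a)
    (hL : ∀ a, Fn (A a) 1 (L a)) (N a : ℕ) (ha : a < N) (v : ℕ) (hv : v ∈ C a) :
    Pd L N (ind v) = L a (ind v) := by
  rw [← Pd_single hC hA hL N a ha (ind v)]
  congr 1
  funext J
  exact ind_inter hv

theorem Pd_ind_zero (hC : ∀ a b, a ≠ b → Disjoint (C a) (C b)) (hA : ∀ a I, A a I → I ⊆ C a)
    (hL : ∀ a, Fn (A a) 1 (L a)) (N : ℕ) (v : ℕ) (hv : ∀ a, a < N → v ∉ C a) :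
    Pd L N (ind v) = 0 := by
  have hP := Pd_fn hC hA hL N
  rw [hP.congr (ind v) (fun _ => 0), hP.zero]
  intro J hJ
  apply ind_of_not_mem
  intro h
  obtain ⟨a, ha, hx⟩ := hJ.1 v h
  exact hv a ha hx

theorem Pd_ind_same (hC : ∀ a b, a ≠ b → Disjoint (C a) (C b)) (hA : ∀ a I, A a I → I ⊆ C a)
    (hL : ∀ a, Fn (A a) 1 (L a)) (N a : ℕ) (ha : a < N) (u v : ℕ) (hu : u ∈ C a) (hv : v ∈ C a) :
    Pd L N (fun J => ind u J * ind v J) = L a (fun J => ind u J * ind v J) := by
  rw [← Pd_single hC hA hL N a ha (fun J => ind u J * ind v J)]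
  congr 1
  funext J
  rw [ind_inter hu, ind_inter hv]

theorem Pd_ind_pair (hC : ∀ a b, a ≠ b → Disjoint (C a) (C b)) (hA : ∀ a I, A a I → I ⊆ C a)
    (hL : ∀ a, Fn (A a) 1 (L a)) (N a b : ℕ) (hab : a ≠ b) (ha : a < N) (hb : b < N) (u v : ℕ)
    (hu : u ∈ C a) (hv : v ∈ C b) :
    Pd L N (fun J => ind u J * ind v J) = L a (ind u) * L b (ind v) := by
  have h1 : (fun J : Finset ℕ => ind u J * ind v J) = fun J => ind u (J ∩ C a) * ind v (J ∩ C b) := by
    funext J
    rw [ind_inter hu, ind_inter hv]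
  rcases lt_or_gt_of_ne hab with h | h
  · rw [h1, Pd_pair hC hA hL N a b h hb]
  · rw [h1, mul_comm (L a (ind u)), ← Pd_pair hC hA hL N b a h ha]
    congr 1
    funext J
    ring

end Pool.Agent.Ram2
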