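import Pool.Agent.Ram2.Kern
import Pool.Agent.Ram2.MSF
import Pool.Agent.Ram2.Hash2

/-!
# The energy decrement
-/

set_option autoImplicit false

namespace Pool.Agent.Ram2

open Finset

/-- The functional of mass `j`: the last `j` stages. -/
def Claim (s : ℕ) (W : ℝ) (j : ℕ) : Prop :=
  ∃ z C : ℝ, 1 ≤ z ∧ 0 ≤ C ∧ ∀ d : ℝ, z ≤ d → ∀ P : ℕ → Finset ℕ, (∀ v, P v ⊆ range v) →
    ∀ X : Finset ℕ, KF P (s + 1) X → ∃ Λ : (Finset ℕ → ℝ) → ℝ, Fn (Indep P X) j Λ ∧
      (∀ v ∈ X, Real.log W / (192 * d) *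
        (j - (8 / 3 * W ^ 2 * Real.log W + 3 / 8 * j) * ((P v ∩ X).card : ℝ) / d) ≤ Λ (ind v)) ∧
      (∀ v, Λ (ind v) ≤ C / d) ∧
      ∀ u v, u ≠ v → Λ (fun I => ind u I * ind v I) ≤ C / d ^ 2

theorem Claim_zero (s : ℕ) (W : ℝ) (hW : 1 < W) : Claim s W 0 := by
  have hlog : 0 < Real.log W := Real.log_pos hW
  refine ⟨1, 0, le_refl _, le_refl _, ?_⟩
  intro d hd P _ X _
  have hd0 : 0 < d := by linarith
  refine ⟨fun _ => 0, ?_, ?_, ?_, ?_⟩
  · have := Fn.zeroFn (A := Indep P X)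
    simpa using this
  · intro v _
    apply mul_nonpos_of_nonneg_of_nonpos (by positivity)
    have : 0 ≤ (8 / 3 * W ^ 2 * Real.log W + 3 / 8 * ((0 : ℕ) : ℝ)) * ((P v ∩ X).card : ℝ) / d := by
      positivity
    have h0 : ((0 : ℕ) : ℝ) = 0 := Nat.cast_zero
    linarith
  · intro v
    simp
  · intro u v _
    simp

theorem Claim_succ (s : ℕ) (hs : ∀ K : ℝ, 0 < K → Q s K) (W : ℝ) (hW : 1 < W) (T j : ℕ)
    (hT : 1 ≤ T) (hj : j ≤ T) (h : Claim s W j) : Claim s W (j + 1) := by
  classical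
  obtain ⟨z, C, hz, hC, h⟩ := h
  have hlog : 0 < Real.log W := Real.log_pos hW
  have hTR : (1 : ℝ) ≤ T := by exact_mod_cast hT
  have hjT : (j : ℝ) ≤ T := by exact_mod_cast hj
  have hz0 : 0 < z := by linarith
  have hK' : 0 < 4 * (T : ℝ) * z := by positivity
  obtain ⟨d₀, C', hd₀, hC', hk⟩ := kern s (4 * T * z) hK' (hs _ hK')
  set w : ℝ := W * Real.log W / 96 with hw
  have hw0 : 0 ≤ w := by positivity
  refine ⟨max (max z (W * Real.log W)) d₀, (w + w ^ 2) + (C + C' * C),
    le_trans hz ((le_max_left _ _).trans (le_max_left _ _)), by positivity, ?_⟩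
  intro d hd P hP X hKF
  have hdz : z ≤ d := ((le_max_left _ _).trans (le_max_left _ _)).trans hd
  have hdW : W * Real.log W ≤ d := ((le_max_right _ _).trans (le_max_left _ _)).trans hd
  have hdd : d₀ ≤ d := (le_max_right _ _).trans hd
  have hd1 : 1 ≤ d := hz.trans hdz
  have hd0 : 0 < d := by linarith
  obtain ⟨n, hn⟩ : ∃ n, X ⊆ range n := by
    refine ⟨X.sup id + 1, fun x hx => mem_range.mpr ?_⟩
    have : x ≤ X.sup id := le_sup (f := id) hx
    omega
  set ρ : ℝ := 1 / (8 * d) with hρ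
  have hρ0 : 0 ≤ ρ := by positivity
  have hρ1 : ρ ≤ 1 := by
    rw [hρ, div_le_iff₀ (by positivity)]
    linarith
  -- the two parts
  obtain ⟨E₁, hE₁, hE₁l, hE₁u, hE₁p⟩ := ms W hW d hd1 hdW P hP n X hn
    (fun u y => sig_nonneg n _ P X u y hρ0 hρ1)
    (fun u y huy hu hy => sig_lower n (8 * d) (by linarith) P X hn u y huy hu hy)
  obtain ⟨E, hE, hEl, hEu, hEp, hEe⟩ := hk (4 * T * d)
    (by nlinarith) ρ hρ0 hρ1 P hP n X hn hKF
  have hπ : 4 * (T : ℝ) * z / (4 * T * d) = z / d := by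
    field_simp
  rw [hπ] at hEl hEu hEp hEe
  -- the functionals for the subsets
  have hsub : ∀ J : Finset ℕ, ∃ Λ : (Finset ℕ → ℝ) → ℝ, J ⊆ X → (Fn (Indep P J) j Λ ∧
      (∀ v ∈ J, Real.log W / (192 * z) *
        (j - (8 / 3 * W ^ 2 * Real.log W + 3 / 8 * j) * ((P v ∩ J).card : ℝ) / z) ≤ Λ (ind v)) ∧
      (∀ v, Λ (ind v) ≤ C / z) ∧
      ∀ u v, u ≠ v → Λ (fun I => ind u I * ind v I) ≤ C / z ^ 2) := by
    intro J
    by_cases hJ : J ⊆ X
    · obtain ⟨Λ, h1⟩ := h z (le_refl _) P hP J (hKF.mono hJ)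
      exact ⟨Λ, fun _ => h1⟩
    · exact ⟨fun _ => 0, fun hh => absurd hh hJ⟩
  choose Λ hΛ using hsub
  have hfn2 : Fn (Indep P X) (1 * (j : ℝ)) (fun f => E (fun J => Λ J f)) := by
    apply hE.bind
    intro J hJ
    apply (hΛ J hJ).1.weaken
    rintro I ⟨h1, h2⟩
    exact ⟨h1.trans hJ, h2⟩
  refine ⟨fun f => E₁ f + E (fun J => Λ J f), ?_, ?_, ?_, ?_⟩
  · have h1 := hE₁.addFn hfn2
    have h2 : (1 : ℝ) + 1 * (j : ℝ) = ((j + 1 : ℕ) : ℝ) := by push_cast; ring
    rw [h2] at h1
    exact h1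
  · intro v hv
    set pv : ℝ := ((P v ∩ X).card : ℝ) with hpv
    set S : ℝ := ∑ y ∈ P v ∩ X, sig n ρ P X v y with hS
    set β : ℝ := 8 / 3 * W ^ 2 * Real.log W + 3 / 8 * j with hβ
    have hβ0 : 8 / 3 * W ^ 2 * Real.log W ≤ β := by
      rw [hβ]
      have : (0 : ℝ) ≤ j := Nat.cast_nonneg _
      linarith
    have hβpos : 0 ≤ β := le_trans (by positivity) hβ0
    have hS0 : 0 ≤ S := sum_nonneg (fun y _ => sig_nonneg n ρ P X v y hρ0 hρ1)
    have hSp : S ≤ pv := by
      rw [hS, hpv]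
      calc ∑ y ∈ P v ∩ X, sig n ρ P X v y ≤ ∑ _y ∈ P v ∩ X, (1 : ℝ) :=
            sum_le_sum (fun y _ => sig_le_one n ρ P X v y hρ0 hρ1)
        _ = ((P v ∩ X).card : ℝ) := by rw [sum_const, nsmul_eq_mul, mul_one]
    have h1 := hE₁l v hv
    -- the second part
    have h2 : E (fun J => Real.log W / (192 * z) * (j * ind v J -
        β / z * ∑ y ∈ P v ∩ X, ind v J * ind y J)) ≤ E (fun J => Λ J (ind v)) := by
      apply hE.mono
      intro J hJ
      by_cases hvJ : v ∈ J
      · refine le_trans (le_of_eq ?_) ((hΛ J hJ).2.1 v hvJ)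
        rw [ind_of_mem hvJ]
        have hcard : ((P v ∩ J).card : ℝ) = ∑ y ∈ P v ∩ X, (1 : ℝ) * ind y J := by
          have e1 : P v ∩ J = (P v ∩ X).filter (fun y => y ∈ J) := by
            ext y
            simp only [mem_inter, mem_filter]
            constructor
            · rintro ⟨h3, h4⟩
              exact ⟨⟨h3, hJ h4⟩, h4⟩
            · rintro ⟨⟨h3, _⟩, h4⟩
              exact ⟨h3, h4⟩
          rw [e1, card_filter]
          push_cast
          apply sum_congr rfl
          intro y _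
          rw [one_mul]
          rfl
        rw [← hcard]
        ring
      · have h3 : ∀ y, ind v J * ind y J = 0 := fun y => by rw [ind_of_not_mem hvJ, zero_mul]
        simp only [h3, sum_const_zero, mul_zero, sub_zero]
        rw [ind_of_not_mem hvJ, mul_zero, mul_zero]
        exact (hΛ J hJ).1.nonneg _ (fun I _ => ind_nonneg v I)
    have h3 : E (fun J => Real.log W / (192 * z) * (j * ind v J -
        β / z * ∑ y ∈ P v ∩ X, ind v J * ind y J)) = Real.log W / (192 * z) *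
        (j * E (ind v) - β / z * ∑ y ∈ P v ∩ X, E (fun J => ind v J * ind y J)) := by
      rw [hE.smul, hE.sub, hE.smul, hE.smul, hE.sum]
    have h4 : ∑ y ∈ P v ∩ X, E (fun J => ind v J * ind y J) ≤ (z / d) ^ 2 * (pv - S) := by
      calc ∑ y ∈ P v ∩ X, E (fun J => ind v J * ind y J) ≤
            ∑ y ∈ P v ∩ X, (z / d) ^ 2 * (1 - sig n ρ P X v y) :=
            sum_le_sum (fun y hy => hEe v hv y hy)
        _ = (z / d) ^ 2 * (pv - S) := by
            rw [← mul_sum, sum_sub_distrib, sum_const, nsmul_eq_mul, mul_one]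
    have h5 := hEl v hv
    have h6 : Real.log W / (192 * z) * (j * (z / d * (1 - S / (4 * T * d))) -
        β / z * ((z / d) ^ 2 * (pv - S))) ≤ E (fun J => Λ J (ind v)) := by
      refine le_trans ?_ h2
      rw [h3]
      apply mul_le_mul_of_nonneg_left _ (by positivity)
      have e1 : (j : ℝ) * (z / d * (1 - S / (4 * T * d))) ≤ j * E (ind v) :=
        mul_le_mul_of_nonneg_left h5 (Nat.cast_nonneg _)
      have e2 : β / z * ∑ y ∈ P v ∩ X, E (fun J => ind v J * ind y J) ≤
          β / z * ((z / d) ^ 2 * (pv - S)) :=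
        mul_le_mul_of_nonneg_left h4 (by positivity)
      linarith
    have h7 : Real.log W / (192 * z) * (j * (z / d * (1 - S / (4 * T * d))) -
        β / z * ((z / d) ^ 2 * (pv - S))) = Real.log W / (192 * d) *
        (j * (1 - S / (4 * T * d)) - β * (pv - S) / d) := by
      field_simp
    rw [h7] at h6
    have h8 : (j : ℝ) * (S / (4 * T * d)) ≤ pv / (4 * d) := by
      have e1 : (j : ℝ) * (S / (4 * T * d)) = (j / T) * (S / (4 * d)) := by
        field_simp
      rw [e1]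
      have e2 : (j : ℝ) / T ≤ 1 := by
        rw [div_le_one (by linarith)]
        exact hjT
      have e3 : S / (4 * d) ≤ pv / (4 * d) := div_le_div_of_nonneg_right hSp (by positivity)
      have e4 : 0 ≤ S / (4 * d) := by positivity
      have e5 : 0 ≤ (j : ℝ) / T := by positivity
      nlinarith
    have h9 : 8 / 3 * W ^ 2 * Real.log W / d * S ≤ β * S / d := by
      have e1 : 8 / 3 * W ^ 2 * Real.log W / d * S = 8 / 3 * W ^ 2 * Real.log W * S / d := by ring
      rw [e1]
      apply div_le_div_of_nonneg_right _ hd0.le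
      exact mul_le_mul_of_nonneg_right hβ0 hS0
    have h10 : ((j + 1 : ℕ) : ℝ) - (8 / 3 * W ^ 2 * Real.log W + 3 / 8 * ((j + 1 : ℕ) : ℝ)) *
        pv / d ≤ (1 - pv / (8 * d) - 8 / 3 * W ^ 2 * Real.log W / d * S) +
        (j * (1 - S / (4 * T * d)) - β * (pv - S) / d) := by
      have e1 : (8 / 3 * W ^ 2 * Real.log W + 3 / 8 * ((j + 1 : ℕ) : ℝ)) * pv / d =
          β * pv / d + 3 / 8 * (pv / d) := by
        rw [hβ]
        push_cast
        ring
      have e2 : β * (pv - S) / d = β * pv / d - β * S / d := by ring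
      have e3 : pv / (8 * d) = 1 / 8 * (pv / d) := by
        field_simp
      have e4 : pv / (4 * d) = 1 / 4 * (pv / d) := by
        field_simp
      rw [e1, e2, e3]
      rw [e4] at h8
      push_cast
      have e5 : (j : ℝ) * (1 - S / (4 * T * d)) = j - j * (S / (4 * T * d)) := by ring
      rw [e5]
      linarith
    have hc0 : 0 ≤ Real.log W / (192 * d) := by positivity
    calc _ ≤ Real.log W / (192 * d) * ((1 - pv / (8 * d) - 8 / 3 * W ^ 2 * Real.log W / d * S) +
        (j * (1 - S / (4 * T * d)) - β * (pv - S) / d)) := mul_le_mul_of_nonneg_left h10 hc0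
      _ = Real.log W / (192 * d) * (1 - pv / (8 * d) - 8 / 3 * W ^ 2 * Real.log W / d * S) +
        Real.log W / (192 * d) * (j * (1 - S / (4 * T * d)) - β * (pv - S) / d) := by ring
      _ ≤ _ := add_le_add h1 h6
  · intro v
    have h1 : E (fun J => Λ J (ind v)) ≤ E (fun J => C / z * ind v J) := by
      apply hE.mono
      intro J hJ
      by_cases hvJ : v ∈ J
      · rw [ind_of_mem hvJ, mul_one]
        exact (hΛ J hJ).2.2.1 v
      · rw [ind_of_not_mem hvJ, mul_zero]
        rw [(hΛ J hJ).1.congr (ind v) (fun _ => 0), (hΛ J hJ).1.zero]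
        intro I hI
        exact ind_of_not_mem (fun hh => hvJ (hI.1 hh))
    rw [hE.smul] at h1
    have h2 : C / z * E (ind v) ≤ C / z * (z / d) :=
      mul_le_mul_of_nonneg_left (hEu v) (by positivity)
    have h3 : C / z * (z / d) = C / d := by field_simp
    have h4 : W * Real.log W / (96 * d) = w / d := by rw [hw]; field_simp
    have h5 := hE₁u v
    rw [h4] at h5
    calc E₁ (ind v) + E (fun J => Λ J (ind v)) ≤ w / d + C / d := by linarith
      _ = (w + C) / d := by ring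
      _ ≤ ((w + w ^ 2) + (C + C' * C)) / d := by
          apply div_le_div_of_nonneg_right _ hd0.le
          have : 0 ≤ C' * C := mul_nonneg hC' hC
          nlinarith [sq_nonneg w]
  · intro u v huv
    have h1 : E (fun J => Λ J (fun I => ind u I * ind v I)) ≤
        E (fun J => C / z ^ 2 * (ind u J * ind v J)) := by
      apply hE.mono
      intro J hJ
      by_cases huJ : u ∈ J
      · by_cases hvJ : v ∈ J
        · rw [ind_of_mem hvJ, ind_of_mem huJ, mul_one, mul_one]
          exact (hΛ J hJ).2.2.2 u v huv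
        · rw [ind_of_not_mem hvJ, mul_zero, mul_zero]
          rw [(hΛ J hJ).1.congr _ (fun _ => 0), (hΛ J hJ).1.zero]
          intro I hI
          rw [ind_of_not_mem (v := v) (fun hh => hvJ (hI.1 hh)), mul_zero]
      · rw [ind_of_not_mem huJ, zero_mul, mul_zero]
        rw [(hΛ J hJ).1.congr _ (fun _ => 0), (hΛ J hJ).1.zero]
        intro I hI
        rw [ind_of_not_mem (v := u) (fun hh => huJ (hI.1 hh)), zero_mul]
    rw [hE.smul] at h1
    have h2 : C / z ^ 2 * E (fun J => ind u J * ind v J) ≤ C / z ^ 2 * (C' * (z / d) ^ 2) :=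
      mul_le_mul_of_nonneg_left (hEp u v huv) (by positivity)
    have h3 : C / z ^ 2 * (C' * (z / d) ^ 2) = C' * C / d ^ 2 := by field_simp
    have h4 : (W * Real.log W / (96 * d)) ^ 2 = w ^ 2 / d ^ 2 := by rw [hw]; field_simp
    have h5 := hE₁p u v huv
    rw [h4] at h5
    calc E₁ (fun I => ind u I * ind v I) + E (fun J => Λ J (fun I => ind u I * ind v I)) ≤
          w ^ 2 / d ^ 2 + C' * C / d ^ 2 := by linarith
      _ = (w ^ 2 + C' * C) / d ^ 2 := by ring
      _ ≤ ((w + w ^ 2) + (C + C' * C)) / d ^ 2 := by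
          apply div_le_div_of_nonneg_right _ (by positivity)
          linarith

theorem Q_succ (s : ℕ) (hs : ∀ K : ℝ, 0 < K → Q s K) (K : ℝ) (hK : 0 < K) : Q (s + 1) K := by
  set W : ℝ := Real.exp (384 * K) with hW
  have hW1 : 1 < W := by
    rw [hW]
    exact Real.one_lt_exp_iff.mpr (by positivity)
  have hlog : Real.log W = 384 * K := Real.log_exp _
  set β₀ : ℝ := 8 / 3 * W ^ 2 * Real.log W with hβ₀
  have hβ₀0 : 0 ≤ β₀ := by
    rw [hβ₀, hlog]
    positivity
  set T : ℕ := ⌈8 * β₀⌉₊ + 1 with hT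
  have hT1 : 1 ≤ T := by omega
  have hTβ : 8 * β₀ ≤ T := by
    rw [hT]
    push_cast
    have := Nat.le_ceil (8 * β₀)
    linarith
  have hall : ∀ j, j ≤ T → Claim s W j := by
    intro j
    induction j with
    | zero => intro _; exact Claim_zero s W hW1
    | succ j ih =>
      intro hj
      exact Claim_succ s hs W hW1 T j hT1 (by omega) (ih (by omega))
  obtain ⟨z, C, hz, hC, h⟩ := hall T (le_refl _)
  have hTR : (1 : ℝ) ≤ T := by exact_mod_cast hT1
  refine ⟨z, C, hz, hC, ?_⟩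
  intro d hd P hP X hKF hdeg
  have hd0 : 0 < d := by linarith
  obtain ⟨Λ, h1, h2, h3, h4⟩ := h d hd P hP X hKF
  have hs1 := h1.scale (1 / (T : ℝ)) (by positivity)
  have hm : 1 / (T : ℝ) * T = 1 := by field_simp
  rw [hm] at hs1
  refine ⟨_, hs1, ?_, ?_, ?_⟩
  · intro v hv
    have h5 := h2 v hv
    have h6 : ((P v ∩ X).card : ℝ) / d ≤ 1 := by
      rw [div_le_one hd0]
      exact hdeg v hv
    have h7 : (T : ℝ) / 2 ≤ T - (β₀ + 3 / 8 * T) * ((P v ∩ X).card : ℝ) / d := by
      have e1 : (β₀ + 3 / 8 * T) * ((P v ∩ X).card : ℝ) / d =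
          (β₀ + 3 / 8 * T) * (((P v ∩ X).card : ℝ) / d) := by ring
      rw [e1]
      have e2 : (β₀ + 3 / 8 * T) * (((P v ∩ X).card : ℝ) / d) ≤ (β₀ + 3 / 8 * T) * 1 :=
        mul_le_mul_of_nonneg_left h6 (by positivity)
      linarith
    have h8 : K / d = 1 / (T : ℝ) * (Real.log W / (192 * d) * (T / 2)) := by
      rw [hlog]
      field_simp
      ring
    rw [h8]
    apply mul_le_mul_of_nonneg_left _ (by positivity)
    refine le_trans ?_ h5
    apply mul_le_mul_of_nonneg_left h7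
    rw [hlog]
    positivity
  · intro v
    have h5 := h3 v
    have h6 : 0 ≤ C / d := by positivity
    have h7 : 1 / (T : ℝ) ≤ 1 := by
      rw [div_le_one (by linarith)]
      exact hTR
    have h8 : 1 / (T : ℝ) * Λ (ind v) ≤ 1 / (T : ℝ) * (C / d) :=
      mul_le_mul_of_nonneg_left h5 (by positivity)
    have h9 : 1 / (T : ℝ) * (C / d) ≤ 1 * (C / d) := mul_le_mul_of_nonneg_right h7 h6
    show 1 / (T : ℝ) * Λ (ind v) ≤ C / d
    linarith
  · intro u v huv
    have h5 := h4 u v huv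
    have h6 : 0 ≤ C / d ^ 2 := by positivity
    have h7 : 1 / (T : ℝ) ≤ 1 := by
      rw [div_le_one (by linarith)]
      exact hTR
    have h8 : 1 / (T : ℝ) * Λ (fun I => ind u I * ind v I) ≤ 1 / (T : ℝ) * (C / d ^ 2) :=
      mul_le_mul_of_nonneg_left h5 (by positivity)
    have h9 : 1 / (T : ℝ) * (C / d ^ 2) ≤ 1 * (C / d ^ 2) := mul_le_mul_of_nonneg_right h7 h6
    show 1 / (T : ℝ) * Λ (fun I => ind u I * ind v I) ≤ C / d ^ 2
    linarith

end Pool.Agent.Ram2
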