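import Pool.Agent.Ram2.Base
import Pool.Agent.Ram2.Step

/-!
# Random independent sets in degenerate graphs with bounded clique number, for every clique number
-/

set_option autoImplicit false

namespace Pool.Agent.Ram2

/-- Statement `Q s K` for every `s` and every `K > 0`. -/
theorem Q_all (s : ℕ) : ∀ K : ℝ, 0 < K → Q s K := by
  induction s with
  | zero => exact fun K hK => Q_zero K hK
  | succ s ih => exact fun K hK => Q_succ s ih K hK

end Pool.Agent.Ram2
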